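import Pool.Agent.Helper92.CB.Rare
import Mathlib.NumberTheory.NumberField.Basic
import Mathlib.RingTheory.Ideal.Norm.AbsNorm
import Mathlib.Analysis.PSeries
import Mathlib.Analysis.SpecialFunctions.Pow.Real

/-!
Rare primes of a number field: sums over prime ideals.
-/

namespace Pool.Agent.Helper92.CB

open NumberField Ideal

variable (K : Type*) [Field K] [NumberField K]

/-- The norms of distinct primes over `p` multiply to a divisor of `p ^ n`. -/
theorem prod_absNorm_dvd (p : ℕ) (S : Finset (Ideal (𝓞 K)))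
    (hS : ∀ P ∈ S, P.IsPrime ∧ P ≠ ⊥ ∧ (p : 𝓞 K) ∈ P) :
    ∏ P ∈ S, absNorm P ∣ p ^ Module.finrank ℚ K := by
  have h1 : ∏ P ∈ S, P ∣ Ideal.span {(p : 𝓞 K)} := by
    refine Finset.prod_primes_dvd _ (fun P hP => ?_) (fun P hP => ?_)
    · exact Ideal.prime_of_isPrime (hS P hP).2.1 (hS P hP).1
    · rw [Ideal.dvd_iff_le, Ideal.span_singleton_le_iff_mem]
      exact (hS P hP).2.2
  have h2 := Ideal.absNorm_dvd_absNorm_of_le (Ideal.le_of_dvd h1)
  rw [map_prod, absNorm_span_natCast, RingOfIntegers.rank] at h2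
  exact h2

/-- A nonzero prime has norm `p ^ f`. -/
theorem exists_char (P : Ideal (𝓞 K)) (hP : P.IsPrime) (h0 : P ≠ ⊥) :
    ∃ p f : ℕ, p.Prime ∧ 0 < f ∧ (p : 𝓞 K) ∈ P ∧ absNorm P = p ^ f := by
  have : P.IsMaximal := hP.isMaximal h0
  obtain ⟨p, f, hf, hm, hp, he⟩ := Ideal.exists_prime_and_absNorm_eq_pow P
  exact ⟨p, f, hp, hf, hm, he⟩

/-- Fibre bound. -/
theorem sum_log_fibre (p : ℕ) (hp : p.Prime) (S : Finset (Ideal (𝓞 K)))
    (hS : ∀ P ∈ S, P.IsPrime ∧ P ≠ ⊥ ∧ (p : 𝓞 K) ∈ P) :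
    ∑ P ∈ S, Real.log (absNorm P) ≤ Module.finrank ℚ K * Real.log p := by
  have h1 := prod_absNorm_dvd K p S hS
  have h2 : ∏ P ∈ S, absNorm P ≤ p ^ Module.finrank ℚ K :=
    Nat.le_of_dvd (pow_pos hp.pos _) h1
  have h3 : ∀ P ∈ S, ((absNorm P : ℕ) : ℝ) ≠ 0 := by
    intro P hP
    have := (hS P hP).2.1
    rw [Ne, Nat.cast_eq_zero, absNorm_eq_zero_iff]
    exact this
  rw [← Real.log_prod h3, ← Real.log_pow]
  have h4 : ((∏ P ∈ S, absNorm P : ℕ) : ℝ) ≤ ((p ^ Module.finrank ℚ K : ℕ) : ℝ) := by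
    exact_mod_cast h2
  push_cast at h4
  refine Real.log_le_log (Finset.prod_pos fun P hP => ?_) h4
  exact lt_of_le_of_ne (Nat.cast_nonneg _) (h3 P hP).symm

/-- cardinality of a fibre -/
theorem card_fibre (p : ℕ) (hp : p.Prime) (S : Finset (Ideal (𝓞 K)))
    (hS : ∀ P ∈ S, P.IsPrime ∧ P ≠ ⊥ ∧ (p : 𝓞 K) ∈ P) :
    S.card ≤ Module.finrank ℚ K := by
  have h1 := prod_absNorm_dvd K p S hS
  have h2 : p ^ S.card ≤ ∏ P ∈ S, absNorm P := by
    refine Finset.pow_card_le_prod _ _ _ fun P hP => ?_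
    obtain ⟨hP1, hP0, hPp⟩ := hS P hP
    obtain ⟨r, f, hr, hf, hrm, he⟩ := exists_char K P hP1 hP0
    have h5 : r = p := by
      have h6 : absNorm P ∣ p ^ Module.finrank ℚ K := by
        have := prod_absNorm_dvd K p {P} (by
          intro Q hQ
          rw [Finset.mem_singleton] at hQ
          subst hQ
          exact ⟨hP1, hP0, hPp⟩)
        rwa [Finset.prod_singleton] at this
      have h7 : r ∣ p ^ Module.finrank ℚ K :=
        (dvd_pow_self r hf.ne').trans (he ▸ h6)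
      exact (Nat.prime_dvd_prime_iff_eq hr hp).mp (hr.dvd_of_dvd_pow h7)
    rw [he, h5]
    exact Nat.le_self_pow hf.ne' p
  have h3 : p ^ S.card ≤ p ^ Module.finrank ℚ K :=
    h2.trans (Nat.le_of_dvd (pow_pos hp.pos _) h1)
  exact (Nat.pow_le_pow_iff_right hp.one_lt).mp h3

/-- Residue characteristic. -/
noncomputable def chr (P : Ideal (𝓞 K)) : ℕ :=
  open Classical in if h : P.IsPrime ∧ P ≠ ⊥ then (exists_char K P h.1 h.2).choose else 0

noncomputable def deg (P : Ideal (𝓞 K)) : ℕ :=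
  open Classical in
    if h : P.IsPrime ∧ P ≠ ⊥ then (exists_char K P h.1 h.2).choose_spec.choose else 0

theorem chr_spec {P : Ideal (𝓞 K)} (hP : P.IsPrime) (h0 : P ≠ ⊥) :
    (chr K P).Prime ∧ 0 < deg K P ∧ ((chr K P : ℕ) : 𝓞 K) ∈ P ∧
      absNorm P = chr K P ^ deg K P := by
  classical
  have h : P.IsPrime ∧ P ≠ ⊥ := ⟨hP, h0⟩
  have := (exists_char K P h.1 h.2).choose_spec.choose_spec
  unfold chr deg
  rw [dif_pos h, dif_pos h]
  exact this

/-- Sums over prime ideals grouped by the residue characteristic. -/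
theorem sum_group (S : Finset (Ideal (𝓞 K))) (hS : ∀ P ∈ S, P.IsPrime ∧ P ≠ ⊥)
    (T : Finset ℕ) (hT : ∀ P ∈ S, chr K P ∈ T) (g : ℕ → ℝ) (hg : ∀ p, 0 ≤ g p) :
    ∑ P ∈ S, g (chr K P) ≤ Module.finrank ℚ K * ∑ p ∈ T, g p := by
  classical
  rw [← Finset.sum_fiberwise_of_maps_to hT, Finset.mul_sum]
  refine Finset.sum_le_sum fun p hp => ?_
  rw [Finset.sum_congr rfl (g := fun _ => g p) (fun P hP => by
    rw [(Finset.mem_filter.mp hP).2]), Finset.sum_const, nsmul_eq_mul]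
  refine mul_le_mul_of_nonneg_right ?_ (hg p)
  rcases Finset.eq_empty_or_nonempty (S.filter fun P => chr K P = p) with h | ⟨P0, hP0⟩
  · rw [h]; simp
  have hP0' := Finset.mem_filter.mp hP0
  have hpp : p.Prime := by
    rw [← hP0'.2]
    exact (chr_spec K (hS P0 hP0'.1).1 (hS P0 hP0'.1).2).1
  have := card_fibre K p hpp (S.filter fun P => chr K P = p) (by
    intro P hP
    have hP' := Finset.mem_filter.mp hP
    refine ⟨(hS P hP'.1).1, (hS P hP'.1).2, ?_⟩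
    have := (chr_spec K (hS P hP'.1).1 (hS P hP'.1).2).2.2.1
    rwa [hP'.2] at this)
  exact_mod_cast this

/-- Mertens type upper bound for prime ideals with norm `1` modulo `q`, logarithmic weights. -/
theorem sumK_log_le (q : ℕ) [NeZero q] :
    ∃ C : ℝ, 0 ≤ C ∧ ∀ x : ℝ, Real.exp 1 ≤ x → ∀ S : Finset (Ideal (𝓞 K)),
      (∀ P ∈ S, P.IsPrime ∧ P ≠ ⊥ ∧ ((absNorm P : ℕ) : ZMod q) = 1 ∧ (absNorm P : ℝ) ≤ x) →
      ∑ P ∈ S, Real.log (absNorm P) / absNorm P ≤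
        Module.finrank ℚ K * Real.exp 1 / q.totient * Real.log x + C := by
  classical
  obtain ⟨C, hC0, hC⟩ := sum_log_le (q := q) (a := 1) isUnit_one
  have hsum : Summable fun m : ℕ => 4 / (m : ℝ) ^ ((3 : ℝ) / 2) := by
    have : Summable fun m : ℕ => 1 / (m : ℝ) ^ ((3 : ℝ) / 2) :=
      Real.summable_one_div_nat_rpow.mpr (by norm_num)
    have h2 := this.mul_left 4
    refine h2.congr fun m => ?_
    ring
  set D : ℝ := ∑' m : ℕ, 4 / (m : ℝ) ^ ((3 : ℝ) / 2) with hD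
  have hD0 : 0 ≤ D := tsum_nonneg fun m => by positivity
  set n : ℝ := (Module.finrank ℚ K : ℝ) with hn
  have hn0 : 0 ≤ n := Nat.cast_nonneg _
  refine ⟨n * C + n * D, by positivity, fun x hx S hS => ?_⟩
  have hx0 : 0 < x := (Real.exp_pos 1).trans_le hx
  rw [← Finset.sum_filter_add_sum_filter_not S (fun P => deg K P = 1)]
  have h1 : ∑ P ∈ S.filter (fun P => deg K P = 1), Real.log (absNorm P) / absNorm P ≤
      n * (Real.exp 1 / q.totient * Real.log x + C) := by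
    have e1 : ∑ P ∈ S.filter (fun P => deg K P = 1), Real.log (absNorm P) / absNorm P =
        ∑ P ∈ S.filter (fun P => deg K P = 1),
          (fun p : ℕ => Real.log p / p) (chr K P) := by
      refine Finset.sum_congr rfl fun P hP => ?_
      have hP' := Finset.mem_filter.mp hP
      have hs := chr_spec K (hS P hP'.1).1 (hS P hP'.1).2.1
      rw [hs.2.2.2, hP'.2, pow_one]
    rw [e1]
    refine (sum_group K _ (fun P hP => ?_) (cls q 1 0 x) (fun P hP => ?_)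
      (fun p : ℕ => Real.log p / p) (fun p => ?_)).trans ?_
    · have hP' := Finset.mem_filter.mp hP
      exact ⟨(hS P hP'.1).1, (hS P hP'.1).2.1⟩
    · have hP' := Finset.mem_filter.mp hP
      have hs := chr_spec K (hS P hP'.1).1 (hS P hP'.1).2.1
      have he : absNorm P = chr K P := by rw [hs.2.2.2, hP'.2, pow_one]
      rw [mem_cls hx0.le, ← he]
      refine ⟨he ▸ hs.1, (hS P hP'.1).2.2.1, ?_, (hS P hP'.1).2.2.2⟩
      rw [he]
      exact_mod_cast hs.1.pos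
    · rcases Nat.eq_zero_or_pos p with h | h
      · subst h; simp
      · exact div_nonneg (Real.log_nonneg (by exact_mod_cast h)) (Nat.cast_nonneg _)
    · exact mul_le_mul_of_nonneg_left (hC 0 x hx) hn0
  have h2 : ∑ P ∈ S.filter (fun P => ¬ deg K P = 1), Real.log (absNorm P) / absNorm P ≤
      n * D := by
    have e1 : ∑ P ∈ S.filter (fun P => ¬ deg K P = 1), Real.log (absNorm P) / absNorm P ≤
        ∑ P ∈ S.filter (fun P => ¬ deg K P = 1),
          (fun m : ℕ => 4 / (m : ℝ) ^ ((3 : ℝ) / 2)) (chr K P) := by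
      refine Finset.sum_le_sum fun P hP => ?_
      have hP' := Finset.mem_filter.mp hP
      have hs := chr_spec K (hS P hP'.1).1 (hS P hP'.1).2.1
      have hf : 2 ≤ deg K P := by
        have := hs.2.1
        have h3 := hP'.2
        omega
      have hp0 : (0 : ℝ) < chr K P := by exact_mod_cast hs.1.pos
      have hp1 : (1 : ℝ) ≤ chr K P := by exact_mod_cast hs.1.one_lt.le
      have hN : ((chr K P : ℝ)) ^ 2 ≤ absNorm P := by
        rw [hs.2.2.2]
        push_cast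
        exact pow_le_pow_right₀ hp1 hf
      have hN0 : (0 : ℝ) < absNorm P := lt_of_lt_of_le (by positivity) hN
      have hl : Real.log (absNorm P) ≤ 4 * (absNorm P : ℝ) ^ ((1 : ℝ) / 4) := by
        have := Real.log_le_rpow_div hN0.le (show (0 : ℝ) < 1 / 4 by norm_num)
        calc Real.log (absNorm P) ≤ (absNorm P : ℝ) ^ ((1 : ℝ) / 4) / (1 / 4) := this
          _ = 4 * (absNorm P : ℝ) ^ ((1 : ℝ) / 4) := by ring
      have hr : (chr K P : ℝ) ^ ((3 : ℝ) / 2) ≤ (absNorm P : ℝ) ^ ((3 : ℝ) / 4) := by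
        calc (chr K P : ℝ) ^ ((3 : ℝ) / 2) = (((chr K P : ℝ)) ^ (2 : ℕ)) ^ ((3 : ℝ) / 4) := by
              rw [← Real.rpow_natCast, ← Real.rpow_mul hp0.le]
              norm_num
          _ ≤ (absNorm P : ℝ) ^ ((3 : ℝ) / 4) :=
              Real.rpow_le_rpow (by positivity) hN (by norm_num)
      have hr0 : 0 < (chr K P : ℝ) ^ ((3 : ℝ) / 2) := by positivity
      have hr1 : 0 < (absNorm P : ℝ) ^ ((3 : ℝ) / 4) := by positivity
      have hprod : (absNorm P : ℝ) ^ ((1 : ℝ) / 4) * (absNorm P : ℝ) ^ ((3 : ℝ) / 4) =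
          absNorm P := by
        rw [← Real.rpow_add hN0]
        norm_num
      show Real.log (absNorm P) / absNorm P ≤ 4 / (chr K P : ℝ) ^ ((3 : ℝ) / 2)
      rw [div_le_div_iff₀ hN0 hr0]
      calc Real.log (absNorm P) * (chr K P : ℝ) ^ ((3 : ℝ) / 2)
          ≤ (4 * (absNorm P : ℝ) ^ ((1 : ℝ) / 4)) * (absNorm P : ℝ) ^ ((3 : ℝ) / 4) := by
            refine mul_le_mul hl hr hr0.le (by positivity)
        _ = 4 * absNorm P := by rw [mul_assoc, hprod]
    refine e1.trans ((sum_group K _ (fun P hP => ?_)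
      ((S.filter (fun P => ¬ deg K P = 1)).image (chr K)) (fun P hP => ?_)
      (fun m : ℕ => 4 / (m : ℝ) ^ ((3 : ℝ) / 2)) (fun p => by positivity)).trans ?_)
    · have hP' := Finset.mem_filter.mp hP
      exact ⟨(hS P hP'.1).1, (hS P hP'.1).2.1⟩
    · exact Finset.mem_image_of_mem _ hP
    · refine mul_le_mul_of_nonneg_left ?_ hn0
      exact hsum.sum_le_tsum _ (fun m _ => by positivity)
  calc _ ≤ n * (Real.exp 1 / q.totient * Real.log x + C) + n * D := add_le_add h1 h2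
    _ = n * Real.exp 1 / q.totient * Real.log x + (n * C + n * D) := by ring

/-- The sum of `N P ^ (-3/2)` over prime ideals converges. -/
theorem sum_rpow_le :
    ∃ C : ℝ, 0 ≤ C ∧ ∀ S : Finset (Ideal (𝓞 K)), (∀ P ∈ S, P.IsPrime ∧ P ≠ ⊥) →
      ∑ P ∈ S, ((absNorm P : ℕ) : ℝ) ^ (-(3 / 2) : ℝ) ≤ C := by
  classical
  have hsum : Summable fun m : ℕ => (m : ℝ) ^ (-(3 / 2) : ℝ) := by
    have : Summable fun m : ℕ => 1 / (m : ℝ) ^ ((3 : ℝ) / 2) :=
      Real.summable_one_div_nat_rpow.mpr (by norm_num)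
    refine this.congr fun m => ?_
    rw [Real.rpow_neg (Nat.cast_nonneg _), one_div]
  refine ⟨(Module.finrank ℚ K : ℝ) * ∑' m : ℕ, (m : ℝ) ^ (-(3 / 2) : ℝ), ?_, fun S hS => ?_⟩
  · exact mul_nonneg (Nat.cast_nonneg _) (tsum_nonneg fun m => by positivity)
  have e1 : ∑ P ∈ S, ((absNorm P : ℕ) : ℝ) ^ (-(3 / 2) : ℝ) ≤
      ∑ P ∈ S, (fun m : ℕ => (m : ℝ) ^ (-(3 / 2) : ℝ)) (chr K P) := by
    refine Finset.sum_le_sum fun P hP => ?_
    have hs := chr_spec K (hS P hP).1 (hS P hP).2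
    have hp0 : (0 : ℝ) < chr K P := by exact_mod_cast hs.1.pos
    have hN : (chr K P : ℝ) ≤ ((absNorm P : ℕ) : ℝ) := by
      rw [hs.2.2.2]
      exact_mod_cast Nat.le_self_pow hs.2.1.ne' _
    exact Real.rpow_le_rpow_of_nonpos hp0 hN (by norm_num)
  refine e1.trans ((sum_group K S hS (S.image (chr K))
    (fun P hP => Finset.mem_image_of_mem _ hP) (fun m : ℕ => (m : ℝ) ^ (-(3 / 2) : ℝ))
    (fun p => by positivity)).trans ?_)
  refine mul_le_mul_of_nonneg_left ?_ (Nat.cast_nonneg _)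
  exact hsum.sum_le_tsum _ (fun m _ => by positivity)

/-- Uniform version: no threshold. -/
theorem rare_log_unif (ε : ℝ) (hε : 0 < ε) :
    ∃ J0 : ℕ, ∀ J : ℕ, J0 ≤ J → ∀ x : ℝ, 1 ≤ x →
      ∀ S : Finset (Ideal (𝓞 K)),
      (∀ P ∈ S, P.IsPrime ∧ P ≠ ⊥ ∧ absNorm P ≡ 1 [MOD 2 ^ J] ∧ (absNorm P : ℝ) ≤ x) →
      ∑ P ∈ S, Real.log (absNorm P) / absNorm P ≤ ε * Real.log x := by
  classical
  set n : ℝ := (Module.finrank ℚ K : ℝ) with hn
  have hn0 : 0 ≤ n := Nat.cast_nonneg _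
  obtain ⟨J0, hJ0⟩ := exists_nat_gt (4 * n * Real.exp 1 / ε + 1)
  have hq0 : NeZero (2 ^ (J0 + 1) : ℕ) := ⟨pow_ne_zero _ (by norm_num)⟩
  obtain ⟨C, hC0, hC⟩ := sumK_log_le K (2 ^ (J0 + 1))
  have htot : ((Nat.totient (2 ^ (J0 + 1)) : ℕ) : ℝ) = 2 ^ J0 := by
    rw [Nat.totient_prime_pow Nat.prime_two (by omega)]
    push_cast
    simp
  have hbig : 4 * n * Real.exp 1 / ε < 2 ^ J0 := by
    have h1 : (J0 : ℝ) ≤ 2 ^ J0 := by
      have h2 : J0 ≤ 2 ^ J0 := Nat.lt_two_pow_self.le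
      exact_mod_cast h2
    linarith
  have hcoef : n * Real.exp 1 / (Nat.totient (2 ^ (J0 + 1)) : ℕ) ≤ ε / 2 := by
    rw [htot, div_le_iff₀ (by positivity)]
    rw [div_lt_iff₀ hε] at hbig
    have h3 : 0 ≤ n * Real.exp 1 := by positivity
    nlinarith
  obtain ⟨J1, hJ1⟩ := exists_nat_gt (4 * C / ε + 2)
  refine ⟨max (J0 + 1) J1, fun J hJ x hx S hS => ?_⟩
  have hJa : J0 + 1 ≤ J := (le_max_left _ _).trans hJ
  have hJb : J1 ≤ J := (le_max_right _ _).trans hJ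
  rcases Finset.eq_empty_or_nonempty S with h | ⟨P0, hP0⟩
  · rw [h, Finset.sum_empty]
    exact mul_nonneg hε.le (Real.log_nonneg hx)
  have hx1 : (2 : ℝ) ^ J < x := by
    obtain ⟨h1, h2, h3, h4⟩ := hS P0 hP0
    have h5 : 2 ^ J < absNorm P0 := by
      have h6 : absNorm P0 ≠ 1 := fun h => h1.ne_top (absNorm_eq_one_iff.mp h)
      have h7 : absNorm P0 ≠ 0 := fun h => h2 (absNorm_eq_zero_iff.mp h)
      have h8 : 2 ^ J ∣ absNorm P0 - 1 := (Nat.modEq_iff_dvd' (by omega)).mp h3.symm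
      have := Nat.le_of_dvd (by omega) h8
      omega
    exact lt_of_lt_of_le (by exact_mod_cast h5) h4
  have hx0 : 0 < x := by linarith
  have hJ2 : (4 * C / ε + 2) < J := hJ1.trans_le (by exact_mod_cast hJb)
  have hCe : 0 ≤ 4 * C / ε := by positivity
  have hlog2 : (1 : ℝ) / 2 ≤ Real.log 2 := by
    have := Real.log_two_gt_d9; linarith
  have hlx : J * Real.log 2 ≤ Real.log x := by
    rw [← Real.log_pow]
    exact Real.log_le_log (by positivity) hx1.le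
  have hlx2 : (2 * C / ε + 1) ≤ Real.log x := by
    refine le_trans ?_ hlx
    have : (4 * C / ε + 2) * (1 / 2) ≤ J * Real.log 2 :=
      mul_le_mul hJ2.le hlog2 (by norm_num) (Nat.cast_nonneg _)
    calc 2 * C / ε + 1 = (4 * C / ε + 2) * (1 / 2) := by ring
      _ ≤ _ := this
  have hxe : Real.exp 1 ≤ x := by
    rw [← Real.le_log_iff_exp_le hx0]
    have : 0 ≤ 2 * C / ε := by positivity
    linarith
  have hlx0 : 0 ≤ Real.log x := Real.log_nonneg hx
  have hCx : C ≤ ε / 2 * Real.log x := by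
    have h1 : 2 * C / ε ≤ Real.log x := by linarith
    rw [div_le_iff₀ hε] at h1
    linarith
  have := hC x hxe S (fun P hP => ?_)
  · calc ∑ P ∈ S, Real.log (absNorm P) / absNorm P
        ≤ n * Real.exp 1 / (Nat.totient (2 ^ (J0 + 1)) : ℕ) * Real.log x + C := this
      _ ≤ ε / 2 * Real.log x + ε / 2 * Real.log x :=
          add_le_add (mul_le_mul_of_nonneg_right hcoef hlx0) hCx
      _ = ε * Real.log x := by ring
  · obtain ⟨h1, h2, h3, h5⟩ := hS P hP
    refine ⟨h1, h2, ?_, h5⟩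
    have h4 : absNorm P ≡ 1 [MOD 2 ^ (J0 + 1)] := h3.of_dvd (pow_dvd_pow 2 hJa)
    have := (ZMod.natCast_eq_natCast_iff _ _ _).mpr h4
    simpa using this

/-- RARE PRIMES: prime ideals with norm `1` modulo `2 ^ J` have small logarithmic density. -/
theorem rare_log (ε : ℝ) (hε : 0 < ε) :
    ∃ J0 : ℕ, ∀ J : ℕ, J0 ≤ J → ∃ w0 : ℝ, 1 ≤ w0 ∧ ∀ x : ℝ, 1 ≤ x →
      ∀ S : Finset (Ideal (𝓞 K)),
      (∀ P ∈ S, P.IsPrime ∧ P ≠ ⊥ ∧ absNorm P ≡ 1 [MOD 2 ^ J] ∧ w0 < (absNorm P : ℝ) ∧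
        (absNorm P : ℝ) ≤ x) →
      ∑ P ∈ S, Real.log (absNorm P) / absNorm P ≤ ε * Real.log x := by
  classical
  set n : ℝ := (Module.finrank ℚ K : ℝ) with hn
  have hn0 : 0 ≤ n := Nat.cast_nonneg _
  obtain ⟨J0, hJ0⟩ := exists_nat_gt (4 * n * Real.exp 1 / ε + 1)
  refine ⟨J0 + 1, fun J hJ => ?_⟩
  have hq0 : NeZero (2 ^ J : ℕ) := ⟨pow_ne_zero _ (by norm_num)⟩
  obtain ⟨C, hC0, hC⟩ := sumK_log_le K (2 ^ J)
  have htot : ((Nat.totient (2 ^ J) : ℕ) : ℝ) = 2 ^ (J - 1) := by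
    rw [Nat.totient_prime_pow Nat.prime_two (by omega)]
    push_cast
    ring
  have hbig : 4 * n * Real.exp 1 / ε < 2 ^ (J - 1) := by
    have h1 : (J0 : ℝ) ≤ 2 ^ (J - 1) := by
      have h2 : J0 ≤ 2 ^ (J - 1) := by
        calc J0 ≤ J - 1 := by omega
          _ ≤ 2 ^ (J - 1) := Nat.lt_two_pow_self.le
      exact_mod_cast h2
    linarith
  have hcoef : n * Real.exp 1 / (Nat.totient (2 ^ J) : ℕ) ≤ ε / 2 := by
    rw [htot, div_le_iff₀ (by positivity)]
    rw [div_lt_iff₀ hε] at hbig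
    have h3 : 0 ≤ n * Real.exp 1 := by positivity
    nlinarith
  refine ⟨max (Real.exp 1) (Real.exp (2 * C / ε)), ?_, fun x hx S hS => ?_⟩
  · exact (Real.one_le_exp zero_le_one).trans (le_max_left _ _)
  rcases Finset.eq_empty_or_nonempty S with h | ⟨P0, hP0⟩
  · rw [h, Finset.sum_empty]
    exact mul_nonneg hε.le (Real.log_nonneg hx)
  have hx1 : max (Real.exp 1) (Real.exp (2 * C / ε)) < x :=
    (hS P0 hP0).2.2.2.1.trans_le (hS P0 hP0).2.2.2.2
  have hxe : Real.exp 1 ≤ x := ((le_max_left _ _).trans_lt hx1).le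
  have hx0 : 0 < x := (Real.exp_pos 1).trans_le hxe
  have hlx : 2 * C / ε ≤ Real.log x := by
    rw [Real.le_log_iff_exp_le hx0]
    exact ((le_max_right _ _).trans_lt hx1).le
  have hlx0 : 0 ≤ Real.log x := Real.log_nonneg hx
  have hCx : C ≤ ε / 2 * Real.log x := by
    rw [div_le_iff₀ hε] at hlx
    linarith
  have := hC x hxe S (fun P hP => ?_)
  · calc ∑ P ∈ S, Real.log (absNorm P) / absNorm P
        ≤ n * Real.exp 1 / (Nat.totient (2 ^ J) : ℕ) * Real.log x + C := this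
      _ ≤ ε / 2 * Real.log x + ε / 2 * Real.log x :=
          add_le_add (mul_le_mul_of_nonneg_right hcoef hlx0) hCx
      _ = ε * Real.log x := by ring
  · obtain ⟨h1, h2, h3, h4, h5⟩ := hS P hP
    refine ⟨h1, h2, ?_, h5⟩
    have := (ZMod.natCast_eq_natCast_iff _ _ _).mpr h3
    simpa using this

end Pool.Agent.Helper92.CB
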