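import Pool.Agent.Helper92.CB.FacV3
import Pool.Agent.Helper25.CB.SysG

/-!
# CB, degree 3: the factor `v` over the system with scaling
-/

set_option autoImplicit false

namespace Pool.Agent.Helper92.CB

open NumberField Polynomial Finset Pool.Agent.Helper4.CB Pool.Agent.Helper25.CB
  Pool.Agent.Helper35.CB Pool.Agent.Helper23.CB

variable {K : Type} [Field K] [NumberField K]

/-- the factor `v` of degree one -/
noncomputable def facV3G (S : Finset (𝓞 K)[X]) (hS : ∀ P ∈ S, P.Monic) (μ : 𝓞 K) (m D : ℕ)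
    (hμ : ∀ q : Pm K m, μ ∉ q.1.asIdeal) (hD : ∑ P ∈ S, P.natDegree + 1 ≤ D) :
    Fac3 (Module.finrank ℚ K) (sysG S hS μ m D hμ hD) where
  d := 1
  one_le := le_rfl
  le_three := by norm_num
  B := Im K m
  bn := fun I => Ideal.absNorm I.1
  pf := fun I => pf I
  Λ := fun I => lamv I.1
  bn_pos := fun I => by
    rw [Ne, Ideal.absNorm_eq_zero_iff]
    exact I.2.1
  index := fun I => index_lamvI I.1
  nm_le := fun I _ hq => nm_le_absNorm I hq
  sup := fun I T h => by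
    rw [eq_top_iff, ← sup_pf I T h]
    exact sup_le_sup_right (gam_le_lamv I.1) _
  P := fun q => {ofPm q}
  P_card := fun q => by
    rw [Finset.card_singleton]
    norm_num
  P_bn := fun q b hb => by
    rw [Finset.mem_singleton] at hb
    rw [hb]
    rfl
  P_pf := fun q b hb => by
    rw [Finset.mem_singleton] at hb
    rw [hb]
    exact pf_ofPm q
  C := (rad_lamv K (eK K)).choose
  rad := fun I ρ hρ => (rad_lamv K (eK K)).choose_spec I.1 I.2.1 ρ (by
    simpa using hρ)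

variable {S : Finset (𝓞 K)[X]} {hS : ∀ P ∈ S, P.Monic} {μ : 𝓞 K} {m D : ℕ}
  {hμ : ∀ q : Pm K m, μ ∉ q.1.asIdeal} {hD : ∑ P ∈ S, P.natDegree + 1 ≤ D}

theorem mem_facV3G_P {q : (sysG S hS μ m D hμ hD).Q} {b : (facV3G S hS μ m D hμ hD).B} :
    b ∈ (facV3G S hS μ m D hμ hD).P q ↔ b = ofPm q := Finset.mem_singleton

/-- the hypothesis of `core3` for the factor `v` -/
theorem base_facV3G (b : (facV3G S hS μ m D hμ hD).B) (T : Finset (sysG S hS μ m D hμ hD).Q) :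
    gam (Ideal.span {(m : 𝓞 K)}) ⊔ ((facV3G S hS μ m D hμ hD).Λ b ⊓
      T.inf (sysG S hS μ m D hμ hD).Γ) = ⊤ :=
  base_sup b _ (gam_le_lamv b.1) T

/-- the radius of the lattices `gam q` -/
theorem rad_sysG : ∃ C : ℕ, ∀ (S : Finset (𝓞 K)[X]) (hS : ∀ P ∈ S, P.Monic) (μ : 𝓞 K) (m D : ℕ)
    (hμ : ∀ q : Pm K m, μ ∉ q.1.asIdeal)
    (hD : ∑ P ∈ S, P.natDegree + 1 ≤ D) (q : (sysG S hS μ m D hμ hD).Q) (ρ : ℕ),
    (sysG S hS μ m D hμ hD).nm q ≤ ρ ^ (Module.finrank ℚ K) →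
    Rad (sysG S hS μ m D hμ hD).e ((sysG S hS μ m D hμ hD).Γ q) (C * ρ) := by
  obtain ⟨C, hC⟩ := rad_both K (eK K)
  exact ⟨C, fun S hS μ m D hμ hD q ρ hρ => hC (toPlG q) _ (fun g => mem_gam) ρ hρ⟩

end Pool.Agent.Helper92.CB
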