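import Pool.Agent.Helper92.CB.Prime
import Pool.Agent.Helper15.PotDense

/-!
Potential density of a conic bundle from conics with points.
-/

set_option autoImplicit false

namespace Pool.Agent.Helper92.CB

open Polynomial AlgebraicGeometry CategoryTheory Pool.Agent.Helper15

/-- `a y² + b` is not a quotient of squares. -/
theorem no_sq_mul {F : Type*} [Field F] [CharZero F] {a b : F} (ha : a ≠ 0) (hb : b ≠ 0)
    (u v : F[X]) (hv : v ≠ 0) : u ^ 2 ≠ (C a * X ^ 2 + C b) * v ^ 2 := by
  intro h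
  set FF := FractionRing F[X]
  have hv' : algebraMap F[X] FF v ≠ 0 := by
    rwa [Ne, map_eq_zero_iff _ (IsFractionRing.injective F[X] FF)]
  have hx : (algebraMap F[X] FF u / algebraMap F[X] FF v) ^ 2 =
      algebraMap F[X] FF (C a * X ^ 2 + C b) := by
    rw [div_pow, div_eq_iff (pow_ne_zero _ hv'), ← map_pow, ← map_pow, ← map_mul, h]
  have hint : IsIntegral F[X] ((algebraMap F[X] FF u / algebraMap F[X] FF v) ^ 2) := by
    rw [hx]
    exact isIntegral_algebraMap
  obtain ⟨w, hw⟩ := IsIntegrallyClosed.exists_algebraMap_eq_of_isIntegral_pow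
    (R := F[X]) (K := FF) (n := 2) (by norm_num) hint
  refine not_sq ha hb w ?_
  apply IsFractionRing.injective F[X] FF
  rw [map_pow, hw, hx]

theorem no_sq_mul' {D : Type*} [CommRing D] [IsDomain D] [CharZero D] {a b : D} (ha : a ≠ 0)
    (hb : b ≠ 0) (u v : D[X]) (hv : v ≠ 0) : u ^ 2 ≠ (C a * X ^ 2 + C b) * v ^ 2 := by
  intro h
  set F := FractionRing D
  have hinj : Function.Injective (algebraMap D F) := IsFractionRing.injective D F
  have : CharZero F := charZero_of_injective_algebraMap hinj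
  have ha' : algebraMap D F a ≠ 0 := by rwa [Ne, map_eq_zero_iff _ hinj]
  have hb' : algebraMap D F b ≠ 0 := by rwa [Ne, map_eq_zero_iff _ hinj]
  have hv' : v.map (algebraMap D F) ≠ 0 := (Polynomial.map_ne_zero_iff hinj).mpr hv
  refine no_sq_mul ha' hb' (u.map (algebraMap D F)) (v.map (algebraMap D F)) hv' ?_
  have := congrArg (Polynomial.map (algebraMap D F)) h
  simpa using this

/-- two variables as iterated polynomials -/
noncomputable def Th (D : Type*) [CommRing D] : MvPolynomial (Fin 2) D →+* D[X][X] :=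
  MvPolynomial.eval₂Hom (C.comp C) ![X, C X]

/-- the inverse -/
noncomputable def Ti (D : Type*) [CommRing D] : D[X][X] →+* MvPolynomial (Fin 2) D :=
  eval₂RingHom (eval₂RingHom MvPolynomial.C (MvPolynomial.X 1)) (MvPolynomial.X 0)

theorem Ti_Th (D : Type*) [CommRing D] (G : MvPolynomial (Fin 2) D) : Ti D (Th D G) = G := by
  have : (Ti D).comp (Th D) = RingHom.id _ := by
    refine MvPolynomial.ringHom_ext (fun r => ?_) (fun i => ?_)
    · simp [Ti, Th]
    · fin_cases i <;> simp [Ti, Th]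
  exact congrArg (fun t : MvPolynomial (Fin 2) D →+* MvPolynomial (Fin 2) D => t G) this

theorem eval_Th {D L : Type*} [CommRing D] [CommRing L] (σ : D →+* L) (x y : L)
    (G : MvPolynomial (Fin 2) D) :
    (Th D G).eval₂ (eval₂RingHom σ y) x = MvPolynomial.eval₂ σ ![x, y] G := by
  have : (eval₂RingHom (eval₂RingHom σ y) x).comp (Th D) = MvPolynomial.eval₂Hom σ ![x, y] := by
    refine MvPolynomial.ringHom_ext (fun r => ?_) (fun i => ?_)
    · simp [Th]
    · fin_cases i <;> simp [Th]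
  exact congrArg (fun t : MvPolynomial (Fin 2) D →+* L => t G) this

/-- the equation of the conic bundle -/
noncomputable abbrev eqn {D : Type*} [CommRing D] (a b : D) : MvPolynomial (Fin 2) D :=
  MvPolynomial.X 0 ^ 2 - MvPolynomial.C a * MvPolynomial.X 1 ^ 2 - MvPolynomial.C b

theorem Th_eqn {D : Type*} [CommRing D] (a b : D) :
    Th D (eqn a b) = X ^ 2 - C (C a * X ^ 2 + C b) := by
  simp only [Th, eqn, map_sub, map_mul, map_pow, MvPolynomial.eval₂Hom_X', MvPolynomial.eval₂Hom_C,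
    Matrix.cons_val_zero, Matrix.cons_val_one, RingHom.comp_apply, map_add]
  ring

/-- Separation of functions by points. -/
theorem separate {K L R : Type} [Field K] [Field L] [Algebra K L] [CharZero L]
    [CommRing R] [IsDomain R] [Algebra K R] [CharZero R] (a b : R[X]) (ha : a ≠ 0) (hb : b ≠ 0)
    (H : ∀ d : R, d ≠ 0 → ∃ φ : R →ₐ[K] K, φ d ≠ 0 ∧ ∀ Z : Finset L, ∃ s : L, s ∉ Z ∧
      aeval s (a.map (φ : R →+* K)) ≠ 0 ∧ aeval s (b.map (φ : R →+* K)) ≠ 0 ∧
      ∀ Y : Finset L, ∃ x y : L, y ∉ Y ∧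
        x ^ 2 = aeval s (a.map (φ : R →+* K)) * y ^ 2 + aeval s (b.map (φ : R →+* K)))
    (g : MvPolynomial (Fin 2) R[X] ⧸ Ideal.span {eqn a b})
    (hg : ∀ ψ : (MvPolynomial (Fin 2) R[X] ⧸ Ideal.span {eqn a b}) →ₐ[K] L, ψ g = 0) : g = 0 := by
  classical
  obtain ⟨G, rfl⟩ := Ideal.Quotient.mk_surjective g
  set f : R[X][X][X] := X ^ 2 - C (C a * X ^ 2 + C b) with hf
  have hfm : f.Monic := monic_X_pow_sub_C _ (by norm_num)
  set r := Th R[X] G %ₘ f with hr
  by_cases hr0 : r = 0
  · rw [hr, modByMonic_eq_zero_iff_dvd hfm] at hr0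
    obtain ⟨H1, hH1⟩ := hr0
    rw [Ideal.Quotient.eq_zero_iff_mem, Ideal.mem_span_singleton]
    refine ⟨Ti R[X] H1, ?_⟩
    rw [← Ti_Th R[X] G, hH1, map_mul, hf, ← Th_eqn, Ti_Th]
  exfalso
  have hdeg : r.natDegree < 2 := by
    have hfd : f.natDegree = 2 := natDegree_X_pow_sub_C
    have := natDegree_modByMonic_lt (Th R[X] G) hfm (by
      intro h1
      rw [h1] at hfd
      simp at hfd)
    rwa [hfd] at this
  have hrep : r = C (r.coeff 1) * X + C (r.coeff 0) :=
    eq_X_add_C_of_natDegree_le_one (by omega)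
  set g0 := r.coeff 0
  set g1 := r.coeff 1
  set q : R[X][X] := C a * X ^ 2 + C b with hq
  set N : R[X][X] := g0 ^ 2 - q * g1 ^ 2 with hN
  have hN0 : N ≠ 0 := by
    intro h
    rw [hN, sub_eq_zero] at h
    by_cases h1 : g1 = 0
    · rw [h1] at h
      have h2 : g0 = 0 := by
        have : g0 ^ 2 = 0 := by rw [h]; ring
        exact pow_eq_zero_iff (two_ne_zero) |>.mp this
      apply hr0
      rw [hrep, h1, h2]
      simp
    · exact no_sq_mul' ha hb g0 g1 h1 h
  set n := N.leadingCoeff with hn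
  have hn0 : n ≠ 0 := leadingCoeff_ne_zero.mpr hN0
  set d := n.leadingCoeff with hd
  have hd0 : d ≠ 0 := leadingCoeff_ne_zero.mpr hn0
  obtain ⟨φ, hφ, hs⟩ := H d hd0
  set τ : R →+* L := (algebraMap K L).comp (φ : R →+* K) with hτ
  have hτd : τ d ≠ 0 := by
    show algebraMap K L (φ d) ≠ 0
    rwa [Ne, map_eq_zero_iff _ (algebraMap K L).injective]
  have hnL : n.map τ ≠ 0 := by
    intro h
    apply hτd
    rw [hd, leadingCoeff, ← coeff_map, h, coeff_zero]
  obtain ⟨s, hsZ, ha0, hb0, hxy⟩ := hs (n.map τ).roots.toFinset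
  have hσe : ∀ p : R[X], aeval s (p.map (φ : R →+* K)) = eval₂ τ s p := by
    intro p
    rw [aeval_def, eval₂_map]
  set σ : R[X] →+* L := eval₂RingHom τ s with hσ
  have hσn : σ n ≠ 0 := by
    intro h
    apply hsZ
    rw [Multiset.mem_toFinset, mem_roots hnL, IsRoot, Polynomial.eval_map]
    exact h
  have hNL : N.map σ ≠ 0 := by
    intro h
    apply hσn
    rw [hn, leadingCoeff, ← coeff_map, h, coeff_zero]
  obtain ⟨x, y, hyY, hx⟩ := hxy (N.map σ).roots.toFinset
  rw [hσe, hσe] at hx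
  have hx' : x ^ 2 = σ a * y ^ 2 + σ b := hx
  have hNy : (N.map σ).eval y ≠ 0 := by
    intro h
    apply hyY
    rw [Multiset.mem_toFinset, mem_roots hNL]
    exact h
  -- the point
  set ψ0 : MvPolynomial (Fin 2) R[X] →+* L := MvPolynomial.eval₂Hom σ ![x, y] with hψ0
  have hker : ∀ p ∈ Ideal.span {eqn a b}, ψ0 p = 0 := by
    intro p hp
    rw [Ideal.mem_span_singleton] at hp
    obtain ⟨t, rfl⟩ := hp
    have : ψ0 (eqn a b) = 0 := by
      simp only [hψ0, eqn, map_sub, map_mul, map_pow, MvPolynomial.eval₂Hom_X',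
        MvPolynomial.eval₂Hom_C, Matrix.cons_val_zero, Matrix.cons_val_one]
      rw [hx']
      ring
    rw [map_mul, this, zero_mul]
  have hcomm : ∀ k : K, ψ0 (algebraMap K (MvPolynomial (Fin 2) R[X]) k) = algebraMap K L k := by
    intro k
    have h1 : algebraMap K (MvPolynomial (Fin 2) R[X]) k =
        MvPolynomial.C (C (algebraMap K R k)) := rfl
    rw [h1, hψ0, MvPolynomial.coe_eval₂Hom, MvPolynomial.eval₂_C, hσ, coe_eval₂RingHom, eval₂_C,
      hτ]
    show algebraMap K L (φ (algebraMap K R k)) = _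
    rw [φ.commutes]
    rfl
  let ψ : (MvPolynomial (Fin 2) R[X] ⧸ Ideal.span {eqn a b}) →ₐ[K] L :=
    { Ideal.Quotient.lift (Ideal.span {eqn a b}) ψ0 hker with
      commutes' := fun k => by
        show Ideal.Quotient.lift (Ideal.span {eqn a b}) ψ0 hker
          (Ideal.Quotient.mk _ (algebraMap K (MvPolynomial (Fin 2) R[X]) k)) = _
        rw [Ideal.Quotient.lift_mk, hcomm] }
  have hG0 : ψ0 G = 0 := by
    have := hg ψ
    exact this
  have h1 : (Th R[X] G).eval₂ (eval₂RingHom σ y) x = 0 := by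
    rw [eval_Th]
    exact hG0
  have hfe : f.eval₂ (eval₂RingHom σ y) x = 0 := by
    rw [hf, ← Th_eqn, eval_Th]
    exact hker _ (Ideal.mem_span_singleton_self _)
  have h2 : r.eval₂ (eval₂RingHom σ y) x = 0 := by
    have h3 := modByMonic_add_div (Th R[X] G) f
    rw [← h3, eval₂_add, eval₂_mul, hfe, zero_mul, add_zero] at h1
    exact h1
  have hqe : (q.map σ).eval y = x ^ 2 := by
    rw [hq, hx']
    simp
  have h4 : (g1.map σ).eval y * x + (g0.map σ).eval y = 0 := by
    rw [hrep, eval₂_add, eval₂_mul, eval₂_C, eval₂_X, eval₂_C] at h2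
    rw [Polynomial.eval_map, Polynomial.eval_map]
    simpa using h2
  apply hNy
  rw [hN, Polynomial.map_sub, Polynomial.map_mul, Polynomial.map_pow, Polynomial.map_pow, eval_sub,
    eval_mul, eval_pow, eval_pow, hqe]
  have h5 : (g0.map σ).eval y = - ((g1.map σ).eval y * x) := by linear_combination h4
  rw [h5]
  ring

/-- **DENS.** Conics with many points over one finite extension `L` in a dense set of fibres. -/
theorem dens_of_points (K : Type) [Field K] [CharZero K] (L : Type) [Field L] [Algebra K L]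
    [FiniteDimensional K L] (R : Type) [CommRing R] [IsDomain R] [Algebra K R]
    (a b : R[X]) (ha : a ≠ 0) (hb : b ≠ 0)
    (H : ∀ d : R, d ≠ 0 → ∃ φ : R →ₐ[K] K, φ d ≠ 0 ∧ ∀ Z : Finset L, ∃ s : L, s ∉ Z ∧
      aeval s (a.map (φ : R →+* K)) ≠ 0 ∧ aeval s (b.map (φ : R →+* K)) ≠ 0 ∧
      ∀ Y : Finset L, ∃ x y : L, y ∉ Y ∧
        x ^ 2 = aeval s (a.map (φ : R →+* K)) * y ^ 2 + aeval s (b.map (φ : R →+* K)))
    (X : Scheme.{0}) (s : X ⟶ Spec (CommRingCat.of K)) [IrreducibleSpace X]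
    (hX : BirationalOver K X (Spec (CommRingCat.of (MvPolynomial (Fin 2) R[X] ⧸ Ideal.span
      {(MvPolynomial.X 0 ^ 2 - MvPolynomial.C a * MvPolynomial.X 1 ^ 2 - MvPolynomial.C b :
        MvPolynomial (Fin 2) R[X])}))) s
      (Spec.map (CommRingCat.ofHom (algebraMap K (MvPolynomial (Fin 2) R[X] ⧸ Ideal.span
      {(MvPolynomial.X 0 ^ 2 - MvPolynomial.C a * MvPolynomial.X 1 ^ 2 - MvPolynomial.C b :
        MvPolynomial (Fin 2) R[X])}))))) :
    PotentiallyDense K X s := by
  have : CharZero L := charZero_of_injective_algebraMap (algebraMap K L).injective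
  have : CharZero R := charZero_of_injective_algebraMap (algebraMap K R).injective
  refine PotentiallyDense.of_birational K X _ s _ hX
    ⟨L, inferInstance, inferInstance, inferInstance, ?_⟩
  exact dense_ratPts_spec K L _ (fun g hg => separate a b ha hb H g hg)

end Pool.Agent.Helper92.CB
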