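import Pool.Agent.Helper23.CB.Inst3
import Pool.Agent.Helper23.CB.Fac3
import Pool.Agent.Helper25.CB.SysK
import Pool.Agent.Helper35.CB.InstCof

/-!
# CB, degree 3: the factor `v`
-/

set_option autoImplicit false

namespace Pool.Agent.Helper92.CB

open NumberField Polynomial Finset Pool.Agent.Helper4.CB Pool.Agent.Helper25.CB
  Pool.Agent.Helper35.CB Pool.Agent.Helper23.CB

variable {K : Type} [Field K] [NumberField K]

omit [NumberField K] in
theorem gam_le_lamv (I : Ideal (𝓞 K)) : gam I ≤ lamv I := fun _ h => h.2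

theorem index_lamvI (I : Ideal (𝓞 K)) : (lamv I).index = Ideal.absNorm I := by
  unfold lamv
  rw [AddSubgroup.index_comap_of_surjective _ (fun y => ⟨(0, y), rfl⟩), index_toAddSubgroup,
    Ideal.absNorm_apply, Submodule.cardQuot_apply]

/-- the covering radius of `lamv` -/
theorem rad_lamv (K : Type) [Field K] [NumberField K] {N : ℕ}
    (e : (Fin N → ℤ) ≃+ 𝓞 K × 𝓞 K) :
    ∃ C : ℕ, ∀ (I : Ideal (𝓞 K)), I ≠ ⊥ → ∀ ρ : ℕ,
        Ideal.absNorm I ≤ ρ ^ (Module.finrank ℚ K) → Rad e (lamv I) (C * ρ) := by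
  obtain ⟨b⟩ := exists_basisO K
  obtain ⟨C, hC⟩ := cov b Module.finrank_pos e (AddMonoidHom.snd (𝓞 K) (𝓞 K))
    (fun y => ⟨(0, y), rfl⟩)
  refine ⟨C, fun I hI ρ hρ => ?_⟩
  refine hC I hI ρ ?_
  rw [← Submodule.cardQuot_apply, ← Ideal.absNorm_apply]
  exact_mod_cast hρ

/-- the factor `v` of degree one -/
noncomputable def facV3 (S : Finset (𝓞 K)[X]) (hS : ∀ P ∈ S, P.Monic) (m D : ℕ)
    (hD : ∑ P ∈ S, P.natDegree + 1 ≤ D) :
    Fac3 (Module.finrank ℚ K) (sysK S hS m D hD) where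
  d := 1
  one_le := le_rfl
  le_three := by norm_num
  B := Im K m
  bn := fun I => Ideal.absNorm I.1
  pf := fun I => pf I
  Λ := fun I => lamv I.1
  bn_pos := fun I => by
    rw [Ne, Ideal.absNorm_eq_zero_iff]
    exact I.2.1
  index := fun I => index_lamvI I.1
  nm_le := fun I _ hq => nm_le_absNorm I hq
  sup := fun I T h => by
    rw [eq_top_iff, ← sup_pf I T h]
    exact sup_le_sup_right (gam_le_lamv I.1) _
  P := fun q => {ofPm q}
  P_card := fun q => by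
    rw [Finset.card_singleton]
    norm_num
  P_bn := fun q b hb => by
    rw [Finset.mem_singleton] at hb
    rw [hb]
    rfl
  P_pf := fun q b hb => by
    rw [Finset.mem_singleton] at hb
    rw [hb]
    exact pf_ofPm q
  C := (rad_lamv K (eK K)).choose
  rad := fun I ρ hρ => (rad_lamv K (eK K)).choose_spec I.1 I.2.1 ρ (by
    simpa using hρ)

variable {S : Finset (𝓞 K)[X]} {hS : ∀ P ∈ S, P.Monic} {m D : ℕ}
  {hD : ∑ P ∈ S, P.natDegree + 1 ≤ D}

theorem mem_facV3_P {q : (sysK S hS m D hD).Q} {b : (facV3 S hS m D hD).B} :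
    b ∈ (facV3 S hS m D hD).P q ↔ b = ofPm q := Finset.mem_singleton

/-- comaximality with the base lattice for any lattice above `gam I` -/
theorem base_sup (I : Im K m) (Λ : AddSubgroup (𝓞 K × 𝓞 K)) (hΛ : gam I.1 ≤ Λ)
    (T : Finset (Pm K m)) :
    gam (Ideal.span {(m : 𝓞 K)}) ⊔ (Λ ⊓ T.inf (fun q => gam q.1.asIdeal)) = ⊤ := by
  rw [eq_top_iff, ← sup_base I T]
  exact sup_le_sup_left (inf_le_inf_right _ hΛ) _

/-- the hypothesis of `core3` for the factor `v` -/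
theorem base_facV3 (b : (facV3 S hS m D hD).B) (T : Finset (sysK S hS m D hD).Q) :
    gam (Ideal.span {(m : 𝓞 K)}) ⊔ ((facV3 S hS m D hD).Λ b ⊓ T.inf (sysK S hS m D hD).Γ) = ⊤ :=
  base_sup b _ (gam_le_lamv b.1) T

/-- the radius of the lattices `gam q` -/
theorem rad_sysK : ∃ C : ℕ, ∀ (S : Finset (𝓞 K)[X]) (hS : ∀ P ∈ S, P.Monic) (m D : ℕ)
    (hD : ∑ P ∈ S, P.natDegree + 1 ≤ D) (q : (sysK S hS m D hD).Q) (ρ : ℕ),
    (sysK S hS m D hD).nm q ≤ ρ ^ (Module.finrank ℚ K) →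
    Rad (sysK S hS m D hD).e ((sysK S hS m D hD).Γ q) (C * ρ) := by
  obtain ⟨C, hC⟩ := rad_both K (eK K)
  exact ⟨C, fun S hS m D hD q ρ hρ => hC (toPl q) _ (fun g => mem_gam) ρ hρ⟩

end Pool.Agent.Helper92.CB
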