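import Pool.Agent.Helper4.CB.GEN
import Pool.Agent.Helper92.CB.Dens
import Pool.Agent.Helper56.CB.Conic
import Pool.Agent.Helper71.CB.Spec
import Pool.Agent.Helper56.CB.LcFree

/-!
# CB, the general end game
-/

set_option autoImplicit false

namespace Pool.Agent.Helper92.CB

open NumberField Polynomial AlgebraicGeometry CategoryTheory Pool.Agent.Helper15
open Pool.Agent.Helper16.CB (LC)
open Pool.Agent.Helper4.CB (PointG Free)

/-- LC at an irreducible factor of a free polynomial. -/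
def LcFreeStmt : Prop :=
  ∀ (M : Type) [Field M] [CharZero M] (k : ℕ) (F : Fin k → M[X]) (i : Fin k),
    (∀ j, (F j).Monic) → (∀ j, j ≠ i → IsCoprime (F i) (F j)) →
    ∀ (α β γ : M), α ≠ 0 → β ≠ 0 → γ ^ 2 = β → ∀ (e f : Fin k → ℕ) (c : M) (h : M[X]), c ≠ 0 →
    F i ∣ C (c ^ 2) * ((-1) ^ (e i * f i) * (C α * ∏ j ∈ Finset.univ.erase i, F j ^ e j) ^ f i *
      (C β * ∏ j ∈ Finset.univ.erase i, F j ^ f j) ^ e i) - h ^ 2 →
    ∀ P : M[X], Irreducible P → P ∣ F i →
      LC (Ideal.span {P}) (C α * ∏ j, F j ^ e j) (∏ j, F j ^ f j)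

/-- a number field containing a square root -/
theorem exists_sqrt (K : Type) [Field K] [NumberField K] (β : K) :
    ∃ (M : Type) (_ : Field M) (_ : NumberField M) (_ : Algebra K M),
      FiniteDimensional K M ∧ ∃ γ : M, γ ^ 2 = algebraMap K M β := by
  obtain ⟨γ0, hγ0⟩ := IsAlgClosed.exists_pow_nat_eq (algebraMap K (AlgebraicClosure K) β)
    (n := 2) (by norm_num)
  have hint : IsIntegral K γ0 := by
    refine ⟨X ^ 2 - C β, monic_X_pow_sub_C β (by norm_num), ?_⟩
    simp [hγ0]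
  have hfd : FiniteDimensional K (IntermediateField.adjoin K {γ0}) :=
    IntermediateField.adjoin.finiteDimensional hint
  have hfq : FiniteDimensional ℚ (IntermediateField.adjoin K {γ0}) :=
    FiniteDimensional.trans ℚ K (IntermediateField.adjoin K {γ0})
  have hch : CharZero (IntermediateField.adjoin K {γ0}) :=
    charZero_of_injective_algebraMap (algebraMap K _).injective
  refine ⟨IntermediateField.adjoin K {γ0}, inferInstance, ⟨⟩, inferInstance, hfd,
    ⟨γ0, IntermediateField.mem_adjoin_simple_self K γ0⟩, ?_⟩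
  apply Subtype.ext
  exact hγ0

theorem finalG' (K : Type) [Field K] [NumberField K] (dm : ℕ)
    (hpw : ∀ (M : Type) [Field M] [NumberField M], PointG M dm) (hlc : LcFreeStmt)
    (R : Type) [CommRing R] [IsDomain R] [Algebra K R]
    (hR : ∀ f : R, f ≠ 0 → ∃ φ : R →ₐ[K] K, φ f ≠ 0)
    (k : ℕ) (F : Fin k → R[X]) (hF : ∀ i, (F i).Monic)
    (α : R) (hα : α ≠ 0) (β : K) (hβ : β ≠ 0) (e f : Fin k → ℕ)
    (hd : ∀ i, (F i).natDegree ≤ dm ∨ (Free F α (algebraMap K R β) e f i ∧
      ∀ j, j ≠ i → IsCoprime ((F i).map (algebraMap R (FractionRing R)))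
        ((F j).map (algebraMap R (FractionRing R)))))
    (hf : Even (∏ i, F i ^ f i).natDegree) (a b : R[X])
    (ha : a = C α * ∏ i, F i ^ e i) (hb : b = C (algebraMap K R β) * ∏ i, F i ^ f i)
    (X : Scheme.{0}) (s : X ⟶ Spec (CommRingCat.of K)) [IrreducibleSpace X]
    (hX : BirationalOver K X (Spec (CommRingCat.of (MvPolynomial (Fin 2) R[X] ⧸ Ideal.span
      {(MvPolynomial.X 0 ^ 2 - MvPolynomial.C a * MvPolynomial.X 1 ^ 2 - MvPolynomial.C b :
        MvPolynomial (Fin 2) R[X])}))) s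
      (Spec.map (CommRingCat.ofHom (algebraMap K (MvPolynomial (Fin 2) R[X] ⧸ Ideal.span
      {(MvPolynomial.X 0 ^ 2 - MvPolynomial.C a * MvPolynomial.X 1 ^ 2 - MvPolynomial.C b :
        MvPolynomial (Fin 2) R[X])}))))) :
    PotentiallyDense K X s := by
  classical
  obtain ⟨M, iM, iN, iA, hfin, γ, hγ⟩ := exists_sqrt K β
  obtain ⟨L, iL, iML, hfinL, hL⟩ := hpw M (∑ i, (e i + f i) * (F i).natDegree)
  let iKL : Algebra K L := ((algebraMap M L).comp (algebraMap K M)).toAlgebra
  have htower : IsScalarTower K M L := IsScalarTower.of_algebraMap_eq (fun x => rfl)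
  have hfKL : FiniteDimensional K L := FiniteDimensional.trans K M L
  have hinjR : Function.Injective (algebraMap K R) := (algebraMap K R).injective
  have hprodm : ∀ g : Fin k → ℕ, (∏ i, F i ^ g i).Monic := fun g =>
    monic_prod_of_monic _ _ fun i _ => (hF i).pow _
  have ha0 : a ≠ 0 := by
    rw [ha]
    exact mul_ne_zero (C_ne_zero.mpr hα) (hprodm e).ne_zero
  have hβR : algebraMap K R β ≠ 0 := by rwa [Ne, map_eq_zero_iff _ hinjR]
  have hb0 : b ≠ 0 := by
    rw [hb]
    exact mul_ne_zero (C_ne_zero.mpr hβR) (hprodm f).ne_zero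
  have hchL : CharZero L := charZero_of_injective_algebraMap (algebraMap M L).injective
  refine dens_of_points K L R a b ha0 hb0 (fun d hd0 => ?_) X s hX
  -- constants of the free conditions
  have hcc : ∀ i, ∃ c : R, c ≠ 0 ∧ ((F i).natDegree ≤ dm ∨ (∃ h : R[X], F i ∣ C (c ^ 2) *
    ((-1) ^ (e i * f i) * (C α * ∏ j ∈ Finset.univ.erase i, F j ^ e j) ^ f i *
      (C (algebraMap K R β) * ∏ j ∈ Finset.univ.erase i, F j ^ f j) ^ e i) - h ^ 2) ∧
      ∀ j, j ≠ i → IsCoprime ((F i).map (algebraMap R (FractionRing R)))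
        ((F j).map (algebraMap R (FractionRing R)))) := by
    intro i
    rcases hd i with h | ⟨⟨c, h, hc, hdvd⟩, hcop⟩
    · exact ⟨1, one_ne_zero, Or.inl h⟩
    · exact ⟨c, hc, Or.inr ⟨⟨h, hdvd⟩, hcop⟩⟩
  choose c hc0 hc using hcc
  have hd1 : d * α * ∏ i, c i ≠ 0 :=
    mul_ne_zero (mul_ne_zero hd0 hα) (Finset.prod_ne_zero_iff.mpr fun i _ => hc0 i)
  obtain ⟨δ, hδ0, hδd, hδ⟩ := Pool.Agent.Helper71.CB.exists_gen F hd1
  obtain ⟨φ, hφ⟩ := hR δ hδ0
  have hφd1 : φ (d * α * ∏ i, c i) ≠ 0 := by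
    intro h
    obtain ⟨t, ht⟩ := hδd
    apply hφ
    rw [ht, map_mul, h, zero_mul]
  have hφd : φ d ≠ 0 := by
    intro h
    apply hφd1
    rw [map_mul, map_mul, h, zero_mul, zero_mul]
  have hφα : φ α ≠ 0 := by
    intro h
    apply hφd1
    rw [map_mul, map_mul, h, mul_zero, zero_mul]
  have hφc : ∀ i, φ (c i) ≠ 0 := by
    intro i h
    apply hφd1
    rw [map_mul, map_prod, Finset.prod_eq_zero (Finset.mem_univ i) h, mul_zero]
  refine ⟨φ, hφd, fun Z => ?_⟩
  set ρ : R →+* M := (algebraMap K M).comp (φ : R →+* K) with hρ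
  have hinjM : Function.Injective (algebraMap K M) := (algebraMap K M).injective
  have hρne : ∀ x : R, φ x ≠ 0 → ρ x ≠ 0 := by
    intro x hx
    show algebraMap K M (φ x) ≠ 0
    rwa [Ne, map_eq_zero_iff _ hinjM]
  have hρβ : ρ (algebraMap K R β) = algebraMap K M β := by
    show algebraMap K M (φ (algebraMap K R β)) = _
    rw [φ.commutes]
    rfl
  have hγ0 : γ ≠ 0 := by
    rintro rfl
    apply hβ
    apply hinjM
    rw [map_zero, ← hγ]
    ring
  set a0 : M[X] := C (ρ α) * ∏ i, (F i).map ρ ^ e i with ha0'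
  set b0 : M[X] := ∏ i, (F i).map ρ ^ f i with hb0'
  have hFm : ∀ i, ((F i).map ρ).Monic := fun i => (hF i).map ρ
  have hb0m : b0.Monic := monic_prod_of_monic _ _ fun i _ => (hFm i).pow _
  have hpe : (∏ i, (F i).map ρ ^ e i : M[X]).Monic :=
    monic_prod_of_monic _ _ fun i _ => (hFm i).pow _
  have ha0ne : a0 ≠ 0 := mul_ne_zero (C_ne_zero.mpr (hρne _ hφα)) hpe.ne_zero
  have hmapa : a.map ρ = a0 := by
    rw [ha, ha0', Polynomial.map_mul, Polynomial.map_prod, Polynomial.map_C]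
    simp only [Polynomial.map_pow]
  have hmapb : b.map ρ = C (algebraMap K M β) * b0 := by
    rw [hb, hb0', Polynomial.map_mul, Polynomial.map_prod, Polynomial.map_C, hρβ]
    simp only [Polynomial.map_pow]
  have hdegf : b0.natDegree = ∑ i, f i * (F i).natDegree := by
    rw [hb0', natDegree_prod_of_monic _ _ fun i _ => (hFm i).pow _]
    refine Finset.sum_congr rfl fun i _ => ?_
    rw [(hFm i).natDegree_pow, (hF i).natDegree_map]
  have hdege : (∏ i, (F i).map ρ ^ e i : M[X]).natDegree = ∑ i, e i * (F i).natDegree := by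
    rw [natDegree_prod_of_monic _ _ fun i _ => (hFm i).pow _]
    refine Finset.sum_congr rfl fun i _ => ?_
    rw [(hFm i).natDegree_pow, (hF i).natDegree_map]
  have heven : Even b0.natDegree := by
    rw [hdegf]
    have : (∏ i, F i ^ f i).natDegree = ∑ i, f i * (F i).natDegree := by
      rw [natDegree_prod_of_monic _ _ fun i _ => (hF i).pow _]
      refine Finset.sum_congr rfl fun i _ => ?_
      rw [(hF i).natDegree_pow]
    rwa [this] at hf
  have hD : (a0 * b0).natDegree ≤ ∑ i, (e i + f i) * (F i).natDegree := by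
    rw [natDegree_mul ha0ne hb0m.ne_zero, ha0', natDegree_C_mul (hρne _ hφα), hdege, hdegf,
      ← Finset.sum_add_distrib]
    refine le_of_eq (Finset.sum_congr rfl fun i _ => ?_)
    ring
  have hirr : ∀ P : M[X], Irreducible P → P ∣ a0 * b0 →
      P.natDegree ≤ dm ∨ LC (Ideal.span {P}) a0 b0 := by
    intro P hP hPd
    have hPp := hP.prime
    have hex : ∃ i, P ∣ (F i).map ρ := by
      rcases hPp.dvd_or_dvd hPd with h | h
      · rcases hPp.dvd_or_dvd h with h | h
        · exfalso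
          exact hP.not_isUnit (isUnit_of_dvd_unit h (isUnit_C.mpr (hρne _ hφα).isUnit))
        · obtain ⟨i, -, hi⟩ := (Prime.dvd_finsetProd_iff hPp _).mp h
          exact ⟨i, hPp.dvd_of_dvd_pow hi⟩
      · obtain ⟨i, -, hi⟩ := (Prime.dvd_finsetProd_iff hPp _).mp h
        exact ⟨i, hPp.dvd_of_dvd_pow hi⟩
    obtain ⟨i, hi⟩ := hex
    rcases hc i with h | ⟨⟨h, hdvd⟩, hcop⟩
    · left
      refine (natDegree_le_of_dvd hi (hFm i).ne_zero).trans ?_
      rw [(hF i).natDegree_map]
      exact h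
    · right
      refine hlc M k (fun j => (F j).map ρ) i hFm (fun j hj => hδ M ρ (hρne _ hφ) i j (hcop j hj))
        (ρ α) (algebraMap K M β) γ (hρne _ hφα) (by rwa [Ne, map_eq_zero_iff _ hinjM]) hγ e f
        (ρ (c i)) (h.map ρ) (hρne _ (hφc i)) ?_ P hP hi
      have h1 := Polynomial.map_dvd ρ hdvd
      simp only [Polynomial.map_sub, Polynomial.map_mul, Polynomial.map_pow, Polynomial.map_C,
        Polynomial.map_neg, Polynomial.map_one, Polynomial.map_prod, hρβ, map_pow] at h1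
      simpa only [map_pow] using h1
  have hinjL : Function.Injective (algebraMap M L) := (algebraMap M L).injective
  obtain ⟨s0, hs0, has, hbs, x, y, z, hne, hxyz⟩ :=
    hL a0 b0 ha0ne hb0m heven hD hirr (Z.preimage (algebraMap M L) (hinjL.injOn))
  have hres : ∀ p : R[X], aeval (algebraMap M L s0) (p.map (φ : R →+* K)) =
      algebraMap M L ((p.map ρ).eval s0) := by
    intro p
    rw [aeval_def, eval₂_map, Polynomial.eval_map, Polynomial.hom_eval₂]
    rfl
  refine ⟨algebraMap M L s0, fun h => hs0 (Finset.mem_preimage.mpr h), ?_, ?_, fun Y => ?_⟩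
  · rw [hres, hmapa]
    rwa [Ne, map_eq_zero_iff _ hinjL]
  · rw [hres, hmapb, eval_mul, eval_C, Ne, map_eq_zero_iff _ hinjL]
    exact mul_ne_zero (by rwa [Ne, map_eq_zero_iff _ hinjM]) hbs
  · have hbe : (C (algebraMap K M β) * b0).eval s0 = algebraMap K M β * b0.eval s0 := by
      rw [eval_mul, eval_C]
    rw [hres, hres, hmapa, hmapb, hbe]
    have hγL : algebraMap M L γ ≠ 0 := by rwa [Ne, map_eq_zero_iff _ hinjL]
    have h1 : algebraMap M L (a0.eval s0) ≠ 0 := by rwa [Ne, map_eq_zero_iff _ hinjL]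
    have h2 : algebraMap M L (algebraMap K M β * b0.eval s0) ≠ 0 := by
      rw [Ne, map_eq_zero_iff _ hinjL]
      exact mul_ne_zero (by rwa [Ne, map_eq_zero_iff _ hinjM]) hbs
    obtain ⟨x', y', h3, h4⟩ := Pool.Agent.Helper56.CB.conic_points h1 h2
      (x := x) (y := y) (z := z / algebraMap M L γ) (by
        rcases hne with h | h | h
        · exact Or.inl h
        · exact Or.inr (Or.inl h)
        · exact Or.inr (Or.inr (div_ne_zero h hγL))) (by
        rw [hxyz, map_mul, ← hγ, map_pow]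
        field_simp) Y
    exact ⟨x', y', h3, h4⟩

theorem lcFree : LcFreeStmt := by
  intro M _ _ k F i hm hco α β γ hα hβ hγ e f c h hc hd P hP hPF
  exact Pool.Agent.Helper56.CB.lc_of_free F i hco hα hβ hγ hc e f h hd P hP hPF (hm i).ne_zero

/-- **ENDG.** Specialisation outside a hypersurface of `R` (resultants of the coprime factors,
the constants `c`). -/
theorem finalG (K : Type) [Field K] [NumberField K] (dm : ℕ)
    (hpw : ∀ (M : Type) [Field M] [NumberField M], PointG M dm)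
    (R : Type) [CommRing R] [IsDomain R] [Algebra K R]
    (hR : ∀ f : R, f ≠ 0 → ∃ φ : R →ₐ[K] K, φ f ≠ 0)
    (k : ℕ) (F : Fin k → R[X]) (hF : ∀ i, (F i).Monic)
    (α : R) (hα : α ≠ 0) (β : K) (hβ : β ≠ 0) (e f : Fin k → ℕ)
    (hd : ∀ i, (F i).natDegree ≤ dm ∨ (Free F α (algebraMap K R β) e f i ∧
      ∀ j, j ≠ i → IsCoprime ((F i).map (algebraMap R (FractionRing R)))
        ((F j).map (algebraMap R (FractionRing R)))))
    (hf : Even (∏ i, F i ^ f i).natDegree) (a b : R[X])
    (ha : a = C α * ∏ i, F i ^ e i) (hb : b = C (algebraMap K R β) * ∏ i, F i ^ f i)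
    (X : Scheme.{0}) (s : X ⟶ Spec (CommRingCat.of K)) [IrreducibleSpace X]
    (hX : BirationalOver K X (Spec (CommRingCat.of (MvPolynomial (Fin 2) R[X] ⧸ Ideal.span
      {(MvPolynomial.X 0 ^ 2 - MvPolynomial.C a * MvPolynomial.X 1 ^ 2 - MvPolynomial.C b :
        MvPolynomial (Fin 2) R[X])}))) s
      (Spec.map (CommRingCat.ofHom (algebraMap K (MvPolynomial (Fin 2) R[X] ⧸ Ideal.span
      {(MvPolynomial.X 0 ^ 2 - MvPolynomial.C a * MvPolynomial.X 1 ^ 2 - MvPolynomial.C b :
        MvPolynomial (Fin 2) R[X])}))))) :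
    PotentiallyDense K X s :=
  finalG' K dm hpw lcFree R hR k F hF α hα β hβ e f hd hf a b ha hb X s hX

end Pool.Agent.Helper92.CB
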