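import Pool.Agent.Helper92.CB.FinalG
import Pool.Agent.Helper33.CB.PG
import Pool.Agent.Helper35.CB.SieveTwo

/-!
# CB: the pointwise theorem for factors of degree at most two
-/

set_option autoImplicit false

namespace Pool.Agent.Helper92.CB

open NumberField Polynomial Pool.Agent.Helper4.CB

/-- the pointwise theorem for `dm = 2` over every number field -/
theorem pointG_two (M : Type) [Field M] [NumberField M] : PointG M 2 :=
  Pool.Agent.Helper33.CB.pg M 2 (Pool.Agent.Helper35.CB.sieveX_two M)

end Pool.Agent.Helper92.CB
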