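import Mathlib

/-!
The ring of a conic bundle is a domain.
-/

set_option autoImplicit false

namespace Pool.Agent.Helper92.CB

open Polynomial

/-- A conic with nonzero coefficients is not a square in one variable. -/
theorem not_sq {F : Type*} [Field F] [CharZero F] {a b : F} (ha : a ≠ 0) (hb : b ≠ 0)
    (W : F[X]) : W ^ 2 ≠ C a * X ^ 2 + C b := by
  intro h
  have hd : (C a * X ^ 2 + C b : F[X]).natDegree = 2 := by
    compute_degree!
  have h1 : W.natDegree = 1 := by
    have := congrArg natDegree h
    rw [natDegree_pow, hd] at this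
    omega
  have hW : W = C (W.coeff 1) * X + C (W.coeff 0) := eq_X_add_C_of_natDegree_le_one h1.le
  set c := W.coeff 1
  set d := W.coeff 0
  rw [hW] at h
  have e0 := congrArg (fun p => p.coeff 0) h
  have e1 := congrArg (fun p => p.coeff 1) h
  have e2 := congrArg (fun p => p.coeff 2) h
  have hexp : (C c * X + C d : F[X]) ^ 2 = C (c ^ 2) * X ^ 2 + C (2 * c * d) * X + C (d ^ 2) := by
    simp only [map_mul, map_pow, C_ofNat]
    ring
  rw [hexp] at e0 e1 e2
  simp only [coeff_add, coeff_C_mul, coeff_X_pow, coeff_C, coeff_X] at e0 e1 e2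
  norm_num at e0 e1 e2
  rcases e1 with h0 | h0
  · rw [h0] at e2
    exact ha (by rw [← e2]; ring)
  · rw [h0] at e0
    exact hb (by rw [← e0]; ring)

theorem prime_conic (D : Type*) [CommRing D] [IsDomain D] [CharZero D] {a b : D} (ha : a ≠ 0)
    (hb : b ≠ 0) :
    (Ideal.span {(MvPolynomial.X 0 ^ 2 - MvPolynomial.C a * MvPolynomial.X 1 ^ 2 -
      MvPolynomial.C b : MvPolynomial (Fin 2) D)}).IsPrime := by
  set F := FractionRing D
  have hinj : Function.Injective (algebraMap D F) := IsFractionRing.injective D F
  have : CharZero F := charZero_of_injective_algebraMap hinj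
  set E := MvPolynomial (Fin 1) D
  set E' := MvPolynomial (Fin 1) F
  set FF := FractionRing E'
  set q : E := MvPolynomial.C a * MvPolynomial.X 0 ^ 2 + MvPolynomial.C b with hq
  set j : E →+* FF := (algebraMap E' FF).comp (MvPolynomial.map (algebraMap D F)) with hj
  have hjinj : Function.Injective j :=
    (IsFractionRing.injective E' FF).comp (MvPolynomial.map_injective _ hinj)
  set f : E[X] := X ^ 2 - C q with hf
  have hfm : f.Monic := monic_X_pow_sub_C q (by norm_num)
  have hfirr : Irreducible (f.map j) := by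
    have : f.map j = X ^ 2 - C (j q) := by
      rw [hf]
      simp
    rw [this, X_pow_sub_C_irreducible_iff_of_prime Nat.prime_two]
    intro x hx
    have hint : IsIntegral E' (x ^ 2) := by
      rw [hx]
      exact isIntegral_algebraMap
    obtain ⟨w, hw⟩ := IsIntegrallyClosed.exists_algebraMap_eq_of_isIntegral_pow
      (R := E') (K := FF) (x := x) (n := 2) (by norm_num) hint
    have h1 : w ^ 2 = MvPolynomial.map (algebraMap D F) q := by
      apply IsFractionRing.injective E' FF
      rw [map_pow, hw, hx]
      rfl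
    have h2 := congrArg (MvPolynomial.aeval (fun _ : Fin 1 => (X : F[X]))) h1
    rw [hq] at h2
    simp only [map_pow, map_add, map_mul, MvPolynomial.map_C, MvPolynomial.map_X,
      MvPolynomial.aeval_X, MvPolynomial.aeval_C] at h2
    have ha' : algebraMap D F a ≠ 0 := by
      rwa [Ne, map_eq_zero_iff _ hinj]
    have hb' : algebraMap D F b ≠ 0 := by
      rwa [Ne, map_eq_zero_iff _ hinj]
    exact not_sq ha' hb' _ h2
  have hfp : Prime (f.map j) := hfirr.prime
  have hprime : Prime f := by
    refine ⟨hfm.ne_zero, ?_, fun g h hgh => ?_⟩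
    · intro hu
      exact hfirr.not_isUnit (hu.map (mapRingHom j))
    · have h1 : f.map j ∣ g.map j * h.map j := by
        rw [← Polynomial.map_mul]
        exact (Polynomial.map_dvd_map j hjinj hfm).mpr hgh
      rcases hfp.dvd_or_dvd h1 with h2 | h2
      · exact Or.inl ((Polynomial.map_dvd_map j hjinj hfm).mp h2)
      · exact Or.inr ((Polynomial.map_dvd_map j hjinj hfm).mp h2)
  set e := MvPolynomial.finSuccEquiv D 1
  have he : e (MvPolynomial.X 0 ^ 2 - MvPolynomial.C a * MvPolynomial.X 1 ^ 2 -
      MvPolynomial.C b : MvPolynomial (Fin 2) D) = f := by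
    have h1 : (1 : Fin 2) = Fin.succ 0 := rfl
    rw [map_sub, map_sub, map_mul, map_pow, map_pow, h1, MvPolynomial.finSuccEquiv_X_zero,
      MvPolynomial.finSuccEquiv_X_succ]
    have hC : ∀ x : D, e (MvPolynomial.C x) = C (MvPolynomial.C x) := fun x => by
      show MvPolynomial.finSuccEquiv D 1 (MvPolynomial.C x) = C (MvPolynomial.C x)
      rw [MvPolynomial.finSuccEquiv_apply, MvPolynomial.eval₂Hom_C]
      rfl
    rw [hC, hC, hf, hq]
    simp only [map_add, map_mul, map_pow]
    ring
  have hp : Prime (MvPolynomial.X 0 ^ 2 - MvPolynomial.C a * MvPolynomial.X 1 ^ 2 -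
      MvPolynomial.C b : MvPolynomial (Fin 2) D) := by
    rw [← MulEquiv.prime_iff e.toMulEquiv]
    show Prime (e _)
    rw [he]
    exact hprime
  exact (Ideal.span_singleton_prime hp.ne_zero).mpr hp

end Pool.Agent.Helper92.CB
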