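import Pool.Agent.Helper92.CB.Prime

/-!
The ring of a family of products of conics is a domain.
-/

set_option autoImplicit false

namespace Pool.Agent.Helper92.CB

open MvPolynomial

/-- constants do not lie in the ideal of a conic -/
theorem conic_inj (D : Type*) [CommRing D] [IsDomain D] [CharZero D] {a b : D} {d : D}
    (h : (C d : MvPolynomial (Fin 2) D) ∈ Ideal.span {(X 0 ^ 2 - C a * X 1 ^ 2 - C b :
      MvPolynomial (Fin 2) D)}) : d = 0 := by
  set F := AlgebraicClosure (FractionRing D)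
  set ι : D →+* F := algebraMap D F
  have hinj : Function.Injective ι := by
    have h1 : Function.Injective (algebraMap D (FractionRing D)) := IsFractionRing.injective D _
    have h2 : Function.Injective (algebraMap (FractionRing D) F) :=
      FaithfulSMul.algebraMap_injective (FractionRing D) (AlgebraicClosure (FractionRing D))
    have h3 : ι = (algebraMap (FractionRing D) F).comp (algebraMap D (FractionRing D)) := rfl
    rw [h3]
    exact h2.comp h1
  obtain ⟨w, hw⟩ := IsAlgClosed.exists_pow_nat_eq (ι b) (n := 2) (by norm_num)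
  obtain ⟨g, hg⟩ := Ideal.mem_span_singleton'.1 h
  have h1 := congrArg (eval₂Hom ι ![w, 0]) hg
  simp only [map_mul, map_sub, map_pow, eval₂Hom_X', eval₂Hom_C, Matrix.cons_val_zero,
    Matrix.cons_val_one] at h1
  rw [hw] at h1
  apply hinj
  rw [map_zero, ← h1]
  ring

/-- the ideal of a product of conics -/
noncomputable def famIdeal {A : Type*} [CommRing A] {r : ℕ} (a b : Fin r → A) :
    Ideal (MvPolynomial (Fin r × Fin 2) A) :=
  Ideal.span (Set.range fun i : Fin r => (X (i, 0) ^ 2 - C (a i) * X (i, 1) ^ 2 - C (b i) :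
    MvPolynomial (Fin r × Fin 2) A))

theorem prime_fam_aux {A : Type*} [CommRing A] [IsDomain A] [CharZero A] :
    ∀ {r : ℕ} (a b : Fin r → A), (∀ i, a i ≠ 0) → (∀ i, b i ≠ 0) →
    (famIdeal a b).IsPrime ∧ ∀ d : A, (C d : MvPolynomial (Fin r × Fin 2) A) ∈ famIdeal a b →
      d = 0 := by
  intro r
  induction r with
  | zero =>
    intro a b _ _
    have h0 : famIdeal a b = ⊥ := by
      unfold famIdeal
      rw [Set.range_eq_empty, Ideal.span_empty]
    rw [h0]
    refine ⟨Ideal.isPrime_bot, fun d hd => ?_⟩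
    rw [Ideal.mem_bot, MvPolynomial.C_eq_zero] at hd
    exact hd
  | succ r ih =>
    intro a b ha hb
    obtain ⟨hp, hC⟩ := ih (fun i => a i.succ) (fun i => b i.succ) (fun i => ha _) (fun i => hb _)
    set B := MvPolynomial (Fin r × Fin 2) A
    set I : Ideal B := famIdeal (fun i => a i.succ) (fun i => b i.succ) with hI
    set D := B ⧸ I
    have hD : IsDomain D := Ideal.Quotient.isDomain I
    set κ : A →+* D := (Ideal.Quotient.mk I).comp C with hκ
    have hκinj : Function.Injective κ := by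
      rw [injective_iff_map_eq_zero]
      intro d hd
      exact hC d (Ideal.Quotient.eq_zero_iff_mem.1 hd)
    have hchar : CharZero D := charZero_of_injective_ringHom hκinj
    have hκ0 : ∀ {x : A}, x ≠ 0 → κ x ≠ 0 := fun hx h => hx (hκinj (by rw [h, map_zero]))
    -- the map to polynomials in the two new variables
    set Φ : MvPolynomial (Fin (r + 1) × Fin 2) A →+* MvPolynomial (Fin 2) D :=
      eval₂Hom (C.comp κ) (fun p => Fin.cases (motive := fun _ => MvPolynomial (Fin 2) D)
        (X p.2) (fun i => C (Ideal.Quotient.mk I (X (i, p.2)))) p.1) with hΦ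
    have hΦC : ∀ x : A, Φ (C x) = C (κ x) := fun x => by
      rw [hΦ, eval₂Hom_C]
      rfl
    have hΦ0 : ∀ j, Φ (X (0, j)) = X j := fun j => by
      rw [hΦ, eval₂Hom_X']
      rfl
    have hΦs : ∀ (i : Fin r) j, Φ (X (i.succ, j)) = C (Ideal.Quotient.mk I (X (i, j))) := fun i j => by
      rw [hΦ, eval₂Hom_X']
      rfl
    -- the section
    set σ : B →+* MvPolynomial (Fin (r + 1) × Fin 2) A :=
      (rename (fun p : Fin r × Fin 2 => (p.1.succ, p.2))).toRingHom with hσ
    have hσC : ∀ x : A, σ (C x) = C x := fun x => rename_C _ x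
    have hσX : ∀ p : Fin r × Fin 2, σ (X p) = X (p.1.succ, p.2) := fun p => rename_X _ p
    have hσI : ∀ x ∈ I, σ x ∈ famIdeal a b := by
      intro x hx
      have h1 : I.map σ ≤ famIdeal a b := by
        rw [hI]
        unfold famIdeal
        rw [Ideal.map_span, Ideal.span_le]
        rintro _ ⟨_, ⟨i, rfl⟩, rfl⟩
        refine Ideal.subset_span ⟨i.succ, ?_⟩
        show _ = σ (X (i, 0) ^ 2 - C (a i.succ) * X (i, 1) ^ 2 - C (b i.succ))
        rw [map_sub, map_sub, map_mul, map_pow, map_pow, hσX, hσX, hσC, hσC]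
      exact h1 (Ideal.mem_map_of_mem _ hx)
    -- the induced map back
    set ψ0 : D →+* MvPolynomial (Fin (r + 1) × Fin 2) A ⧸ famIdeal a b :=
      Ideal.Quotient.lift I ((Ideal.Quotient.mk (famIdeal a b)).comp σ) (fun x hx =>
        Ideal.Quotient.eq_zero_iff_mem.2 (hσI x hx)) with hψ0
    set Ψ : MvPolynomial (Fin 2) D →+* MvPolynomial (Fin (r + 1) × Fin 2) A ⧸ famIdeal a b :=
      eval₂Hom ψ0 (fun j => Ideal.Quotient.mk _ (X (0, j))) with hΨ
    have hcomp : Ψ.comp Φ = Ideal.Quotient.mk (famIdeal a b) := by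
      apply MvPolynomial.ringHom_ext
      · intro x
        rw [RingHom.comp_apply, hΦC, hΨ, eval₂Hom_C, hψ0, hκ]
        rw [RingHom.comp_apply, Ideal.Quotient.lift_mk, RingHom.comp_apply, hσC]
      · rintro ⟨i, j⟩
        refine Fin.cases ?_ (fun i => ?_) i
        · rw [RingHom.comp_apply, hΦ0, hΨ, eval₂Hom_X']
        · rw [RingHom.comp_apply, hΦs, hΨ, eval₂Hom_C, hψ0, Ideal.Quotient.lift_mk,
            RingHom.comp_apply, hσX]
    set q : MvPolynomial (Fin 2) D := X 0 ^ 2 - C (κ (a 0)) * X 1 ^ 2 - C (κ (b 0)) with hq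
    have hΨq : Ψ q = 0 := by
      have h1 : q = Φ (X (0, 0) ^ 2 - C (a 0) * X (0, 1) ^ 2 - C (b 0)) := by
        rw [map_sub, map_sub, map_mul, map_pow, map_pow, hΦ0, hΦ0, hΦC, hΦC]
      have h2 : Ψ q = (Ψ.comp Φ) (X (0, 0) ^ 2 - C (a 0) * X (0, 1) ^ 2 - C (b 0)) := by
        rw [h1]
        rfl
      rw [h2, hcomp]
      exact Ideal.Quotient.eq_zero_iff_mem.2 (Ideal.subset_span ⟨0, rfl⟩)
    have hmem : ∀ f, f ∈ famIdeal a b ↔ Φ f ∈ Ideal.span {q} := by
      intro f
      constructor
      · intro hf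
        have h1 : (famIdeal a b).map Φ ≤ Ideal.span {q} := by
          unfold famIdeal
          rw [Ideal.map_span, Ideal.span_le]
          rintro _ ⟨_, ⟨i, rfl⟩, rfl⟩
          refine Fin.cases ?_ (fun i => ?_) i
          · show Φ (X (0, 0) ^ 2 - C (a 0) * X (0, 1) ^ 2 - C (b 0)) ∈ Ideal.span {q}
            rw [map_sub, map_sub, map_mul, map_pow, map_pow, hΦ0, hΦ0, hΦC, hΦC]
            exact Ideal.mem_span_singleton_self _
          · show Φ (X (i.succ, 0) ^ 2 - C (a i.succ) * X (i.succ, 1) ^ 2 - C (b i.succ)) ∈ _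
            have h2 : Φ (X (i.succ, 0) ^ 2 - C (a i.succ) * X (i.succ, 1) ^ 2 - C (b i.succ)) = 0 := by
              rw [map_sub, map_sub, map_mul, map_pow, map_pow, hΦs, hΦs, hΦC, hΦC, hκ]
              rw [← map_pow, ← map_pow, ← map_pow, ← map_pow, RingHom.comp_apply,
                RingHom.comp_apply, ← map_mul, ← map_mul, ← map_sub, ← map_sub,
                ← map_sub, ← map_sub]
              rw [MvPolynomial.C_eq_zero, Ideal.Quotient.eq_zero_iff_mem]
              exact Ideal.subset_span ⟨i, rfl⟩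
            rw [h2]
            exact Ideal.zero_mem _
        exact h1 (Ideal.mem_map_of_mem _ hf)
      · intro hf
        obtain ⟨g, hg⟩ := Ideal.mem_span_singleton'.1 hf
        rw [← Ideal.Quotient.eq_zero_iff_mem, ← hcomp, RingHom.comp_apply, ← hg, map_mul, hΨq,
          mul_zero]
    have hprime : (Ideal.span {q}).IsPrime := prime_conic D (hκ0 (ha 0)) (hκ0 (hb 0))
    have heq : famIdeal a b = (Ideal.span {q}).comap Φ := by
      ext f
      rw [hmem, Ideal.mem_comap]
    refine ⟨?_, fun d hd => ?_⟩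
    · rw [heq]
      exact Ideal.comap_isPrime Φ _
    · rw [hmem, hΦC] at hd
      have h1 := conic_inj D hd
      exact hκinj (by rw [h1, map_zero])

/-- **products of conics over a domain form an integral scheme** -/
theorem prime_fam {A : Type*} [CommRing A] [IsDomain A] [CharZero A] {r : ℕ} (a b : Fin r → A)
    (ha : ∀ i, a i ≠ 0) (hb : ∀ i, b i ≠ 0) :
    (Ideal.span (Set.range fun i : Fin r => (X (i, 0) ^ 2 - C (a i) * X (i, 1) ^ 2 - C (b i) :
      MvPolynomial (Fin r × Fin 2) A))).IsPrime := (prime_fam_aux a b ha hb).1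

/-- the base embeds -/
theorem fam_inj {A : Type*} [CommRing A] [IsDomain A] [CharZero A] {r : ℕ} (a b : Fin r → A)
    (ha : ∀ i, a i ≠ 0) (hb : ∀ i, b i ≠ 0) (d : A)
    (hd : (C d : MvPolynomial (Fin r × Fin 2) A) ∈ Ideal.span (Set.range fun i : Fin r =>
      (X (i, 0) ^ 2 - C (a i) * X (i, 1) ^ 2 - C (b i) : MvPolynomial (Fin r × Fin 2) A))) :
    d = 0 := (prime_fam_aux a b ha hb).2 d hd

end Pool.Agent.Helper92.CB
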