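import Mathlib.NumberTheory.LSeries.PrimesInAP
import Mathlib.LinearAlgebra.Dimension.DivisionRing
import Mathlib.NumberTheory.RamificationInertia.Inertia
import Mathlib.NumberTheory.RamificationInertia.Ramification
import Mathlib.RingTheory.Ideal.Norm.AbsNorm
import Mathlib.NumberTheory.NumberField.Basic
import Mathlib.Analysis.PSeries

/-!
Rare primes: primes congruent to `1` modulo a large power of `2` have small Mertens density.
-/

namespace Pool.Agent.Helper92.CB

open ArithmeticFunction ArithmeticFunction.vonMangoldt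

/-- Upper bound near `s = 1` for the L-series of the von Mangoldt function on a class. -/
theorem lseries_upper {q : ℕ} [NeZero q] {a : ZMod q} (ha : IsUnit a) :
    ∃ C : ℝ, ∀ {x : ℝ} (_ : x ∈ Set.Ioc (1:ℝ) 2),
      ∑' n, residueClass a n / (n : ℝ) ^ x ≤ (q.totient : ℝ)⁻¹ / (x - 1) + C := by
  have H {x : ℝ} (hx : 1 < x) :
      ∑' n, residueClass a n / (n : ℝ) ^ x =
        (LFunctionResidueClassAux a x).re + (q.totient : ℝ)⁻¹ / (x - 1) := by
    refine Complex.ofReal_injective ?_
    simp only [Complex.ofReal_tsum, Complex.ofReal_div, Complex.ofReal_cpow (Nat.cast_nonneg _),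
      Complex.ofReal_natCast,
      Complex.ofReal_add, Complex.ofReal_inv, Complex.ofReal_sub, Complex.ofReal_one]
    simp_rw [← LFunctionResidueClassAux_real ha hx,
      eqOn_LFunctionResidueClassAux ha <| Set.mem_ofPred.mpr (Complex.ofReal_re x ▸ hx),
      sub_add_cancel,
      LSeries, LSeries.term]
    refine tsum_congr fun n ↦ ?_
    split_ifs with hn
    · simp only [hn, residueClass_apply_zero, Complex.ofReal_zero, zero_div]
    · rfl
  have : ContinuousOn (fun x : ℝ ↦ (LFunctionResidueClassAux a x).re) (Set.Icc 1 2) :=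
    Complex.continuous_re.continuousOn.comp (t := Set.univ)
      (continuousOn_LFunctionResidueClassAux a)
      (fun ⦃x⦄ a ↦ trivial) |>.comp Complex.continuous_ofReal.continuousOn fun x hx ↦ by
        simpa only [Set.mem_ofPred_eq, Complex.ofReal_re] using hx.1
  obtain ⟨C, hC⟩ := bddAbove_def.mp <| IsCompact.bddAbove_image isCompact_Icc this
  refine ⟨C, fun {x} hx ↦ ?_⟩
  rw [H hx.1, add_comm, add_le_add_iff_left]
  exact hC _ (Set.mem_image_of_mem (fun x : ℝ ↦ (LFunctionResidueClassAux a x).re)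
    (Set.mem_Icc_of_Ioc hx))

/-- primes up to `x` in a class -/
noncomputable def cls (q : ℕ) (a : ZMod q) (w x : ℝ) : Finset ℕ :=
  open Classical in (Finset.range (⌊x⌋₊ + 1)).filter
    (fun p => p.Prime ∧ (p : ZMod q) = a ∧ w < (p : ℝ))

theorem mem_cls {q : ℕ} {a : ZMod q} {w x : ℝ} (hx : 0 ≤ x) {p : ℕ} :
    p ∈ cls q a w x ↔ p.Prime ∧ (p : ZMod q) = a ∧ w < (p : ℝ) ∧ (p : ℝ) ≤ x := by
  classical
  unfold cls
  rw [Finset.mem_filter, Finset.mem_range, Nat.lt_succ_iff, Nat.le_floor_iff hx]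
  tauto

/-- Mertens type upper bound, logarithmic weights. -/
theorem sum_log_le {q : ℕ} [NeZero q] {a : ZMod q} (ha : IsUnit a) :
    ∃ C : ℝ, 0 ≤ C ∧ ∀ w x : ℝ, Real.exp 1 ≤ x →
      ∑ p ∈ cls q a w x, Real.log p / p ≤ Real.exp 1 / q.totient * Real.log x + C := by
  obtain ⟨C, hC⟩ := lseries_upper ha
  refine ⟨Real.exp 1 * |C|, by positivity, fun w x hx => ?_⟩
  have hx0 : 0 < x := (Real.exp_pos 1).trans_le hx
  have hlx : 1 ≤ Real.log x := by
    rw [Real.le_log_iff_exp_le hx0]; exact hx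
  have hlx0 : 0 < Real.log x := by linarith
  set s : ℝ := 1 + 1 / Real.log x with hs
  have hs1 : 1 < s := by
    have : 0 < 1 / Real.log x := by positivity
    linarith
  have hs2 : s ≤ 2 := by
    have : 1 / Real.log x ≤ 1 := by
      rw [div_le_one hlx0]; exact hlx
    linarith
  have hsum : Summable fun n : ℕ => residueClass a n / (n : ℝ) ^ s := by
    exact LSeries.summable_real_of_abscissaOfAbsConv_lt <|
        (abscissaOfAbsConv_residueClass_le_one a).trans_lt <| mod_cast hs1
  have h1 : ∀ p ∈ cls q a w x, Real.log p / p ≤ Real.exp 1 * (residueClass a p / (p : ℝ) ^ s) := by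
    intro p hp
    rw [mem_cls hx0.le] at hp
    obtain ⟨hpp, hpa, -, hpx⟩ := hp
    have hp0 : (0 : ℝ) < p := by exact_mod_cast hpp.pos
    have hr : residueClass a p = Real.log p := by
      rw [residueClass, Set.indicator_of_mem]
      · exact vonMangoldt_apply_prime hpp
      · exact hpa
    rw [hr]
    have hp1 : (p : ℝ) ^ s = p * (p : ℝ) ^ (1 / Real.log x) := by
      rw [hs, Real.rpow_add hp0, Real.rpow_one]
    have hp2 : (p : ℝ) ^ (1 / Real.log x) ≤ Real.exp 1 := by
      calc (p : ℝ) ^ (1 / Real.log x) ≤ x ^ (1 / Real.log x) :=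
            Real.rpow_le_rpow hp0.le hpx (by positivity)
        _ = Real.exp 1 := by
            rw [Real.rpow_def_of_pos hx0]
            congr 1
            field_simp
    have hp3 : 0 < (p : ℝ) ^ (1 / Real.log x) := by positivity
    have hlp : 0 ≤ Real.log p := Real.log_nonneg (by exact_mod_cast hpp.one_lt.le)
    rw [hp1, ← mul_div_assoc, div_le_div_iff₀ hp0 (by positivity)]
    calc Real.log p * (p * (p : ℝ) ^ (1 / Real.log x))
        ≤ Real.log p * (p * Real.exp 1) := by gcongr
      _ = Real.exp 1 * Real.log p * p := by ring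
  calc ∑ p ∈ cls q a w x, Real.log p / p
      ≤ ∑ p ∈ cls q a w x, Real.exp 1 * (residueClass a p / (p : ℝ) ^ s) := Finset.sum_le_sum h1
    _ = Real.exp 1 * ∑ p ∈ cls q a w x, (residueClass a p / (p : ℝ) ^ s) := by
        rw [Finset.mul_sum]
    _ ≤ Real.exp 1 * ∑' n : ℕ, residueClass a n / (n : ℝ) ^ s := by
        gcongr
        exact hsum.sum_le_tsum _ (fun n _ => div_nonneg (residueClass_nonneg a n) (by positivity))
    _ ≤ Real.exp 1 * ((q.totient : ℝ)⁻¹ / (s - 1) + C) := by
        gcongr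
        exact hC ⟨hs1, hs2⟩
    _ = Real.exp 1 / q.totient * Real.log x + Real.exp 1 * C := by
        have : s - 1 = 1 / Real.log x := by rw [hs]; ring
        rw [this]
        field_simp
    _ ≤ Real.exp 1 / q.totient * Real.log x + Real.exp 1 * |C| := by
        gcongr
        exact le_abs_self C

theorem cls_union {q : ℕ} {a : ZMod q} {w y x : ℝ} (hy0 : 0 ≤ y) (hyx : y ≤ x) :
    cls q a w x ⊆ cls q a w y ∪ cls q a y x := by
  classical
  intro p hp
  rw [mem_cls (hy0.trans hyx)] at hp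
  rw [Finset.mem_union, mem_cls hy0, mem_cls (hy0.trans hyx)]
  rcases le_or_gt (p : ℝ) y with h | h
  · exact Or.inl ⟨hp.1, hp.2.1, hp.2.2.1, h⟩
  · exact Or.inr ⟨hp.1, hp.2.1, h, hp.2.2.2⟩

theorem cls_mono {q : ℕ} {a : ZMod q} {w y x : ℝ} (hy0 : 0 ≤ y) (hyx : y ≤ x) :
    cls q a w y ⊆ cls q a w x := by
  intro p hp
  rw [mem_cls hy0] at hp
  rw [mem_cls (hy0.trans hyx)]
  exact ⟨hp.1, hp.2.1, hp.2.2.1, hp.2.2.2.trans hyx⟩

/-- Mertens type upper bound for the class of `a` modulo `q`. -/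
theorem sum_inv_le {q : ℕ} [NeZero q] {a : ZMod q} (ha : IsUnit a) :
    ∃ w0 : ℝ, Real.exp 1 ≤ w0 ∧ ∀ w x : ℝ, w0 ≤ w → w ≤ x →
      ∑ p ∈ cls q a w x, (1 : ℝ) / p ≤
        9 / q.totient * (1 + 2 * Real.log (Real.log x / Real.log w)) := by
  classical
  obtain ⟨C, hC0, hC⟩ := sum_log_le ha
  have hq : (0 : ℝ) < q.totient := by exact_mod_cast q.totient.pos_of_neZero
  refine ⟨Real.exp (1 + C * q.totient), Real.exp_le_exp.mpr (by nlinarith [mul_nonneg hC0 hq.le]),
    fun w x hw hx => ?_⟩
  have hlw : 1 + C * q.totient ≤ Real.log w := by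
    rw [Real.le_log_iff_exp_le ((Real.exp_pos _).trans_le hw)]; exact hw
  have hw0 : 0 < w := (Real.exp_pos _).trans_le hw
  have hCq : 0 ≤ C * q.totient := mul_nonneg hC0 hq.le
  have hlw1 : 1 ≤ Real.log w := by linarith
  have hlw0 : 0 < Real.log w := by linarith
  have hw1 : 1 ≤ w := by
    by_contra h
    push Not at h
    have := Real.log_nonpos hw0.le h.le
    linarith
  have he : Real.exp 1 ≤ w := (Real.exp_le_exp.mpr (by linarith)).trans hw
  have hCw : C / Real.log w ≤ 1 / q.totient := by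
    rw [div_le_div_iff₀ hlw0 hq]; linarith
  have he3 : Real.exp 1 ≤ 3 := by
    have := Real.exp_one_lt_d9; linarith
  -- blocks
  have key : ∀ j : ℕ, ∑ p ∈ cls q a w (w ^ (2 ^ j)), (1 : ℝ) / p ≤ j * (7 / q.totient) := by
    intro j
    induction j with
    | zero =>
      have : cls q a w (w ^ (2 ^ 0)) = ∅ := by
        ext p
        rw [pow_zero, pow_one, mem_cls hw0.le]
        simp only [Finset.notMem_empty, iff_false]
        rintro ⟨-, -, h1, h2⟩
        linarith
      rw [this]
      simp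
    | succ j ih =>
      have hy0 : 0 ≤ w ^ (2 ^ j) := by positivity
      have hyx : w ^ (2 ^ j) ≤ w ^ (2 ^ (j + 1)) :=
        pow_le_pow_right₀ hw1 (Nat.pow_le_pow_right (by norm_num) (Nat.le_succ j))
      have h1 := Finset.sum_le_sum_of_subset_of_nonneg (f := fun p : ℕ => (1 : ℝ) / p)
        (cls_union (q := q) (a := a) (w := w) hy0 hyx) (fun p _ _ => by positivity)
      have h2 : ∑ p ∈ cls q a w (w ^ (2 ^ j)) ∪ cls q a (w ^ (2 ^ j)) (w ^ (2 ^ (j + 1))),
          (1 : ℝ) / p ≤ ∑ p ∈ cls q a w (w ^ (2 ^ j)), (1 : ℝ) / p +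
            ∑ p ∈ cls q a (w ^ (2 ^ j)) (w ^ (2 ^ (j + 1))), (1 : ℝ) / p := by
        rw [← Finset.sum_union_inter]
        have : 0 ≤ ∑ p ∈ cls q a w (w ^ (2 ^ j)) ∩ cls q a (w ^ (2 ^ j)) (w ^ (2 ^ (j + 1))),
          (1 : ℝ) / p := Finset.sum_nonneg fun p _ => by positivity
        linarith
      have h3 : ∑ p ∈ cls q a (w ^ (2 ^ j)) (w ^ (2 ^ (j + 1))), (1 : ℝ) / p ≤
          7 / q.totient := by
        have hl : Real.log (w ^ (2 ^ j)) = 2 ^ j * Real.log w := by
          rw [Real.log_pow]; push_cast; ring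
        have hl' : Real.log (w ^ (2 ^ (j + 1))) = 2 * (2 ^ j * Real.log w) := by
          rw [Real.log_pow]; push_cast; ring
        have hpj : (1 : ℝ) ≤ 2 ^ j := one_le_pow₀ (by norm_num)
        have hL : 0 < 2 ^ j * Real.log w := by positivity
        have hLw : Real.log w ≤ 2 ^ j * Real.log w := by nlinarith
        have h4 : ∑ p ∈ cls q a (w ^ (2 ^ j)) (w ^ (2 ^ (j + 1))), (1 : ℝ) / p ≤
            (1 / (2 ^ j * Real.log w)) *
              ∑ p ∈ cls q a (w ^ (2 ^ j)) (w ^ (2 ^ (j + 1))), Real.log p / p := by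
          rw [Finset.mul_sum]
          refine Finset.sum_le_sum fun p hp => ?_
          rw [mem_cls (hy0.trans hyx)] at hp
          have hp0 : (0 : ℝ) < p := by exact_mod_cast hp.1.pos
          have h5 : 2 ^ j * Real.log w ≤ Real.log p := by
            rw [← hl]
            exact Real.log_le_log (by positivity) hp.2.2.1.le
          rw [div_mul_div_comm, one_mul, div_le_div_iff₀ hp0 (by positivity)]
          nlinarith
        have hxe : Real.exp 1 ≤ w ^ (2 ^ (j + 1)) := by
          refine he.trans ?_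
          calc w = w ^ 1 := (pow_one w).symm
            _ ≤ w ^ (2 ^ (j + 1)) := pow_le_pow_right₀ hw1 Nat.one_le_two_pow
        have h5 := hC (w ^ (2 ^ j)) (w ^ (2 ^ (j + 1))) hxe
        rw [hl'] at h5
        calc ∑ p ∈ cls q a (w ^ (2 ^ j)) (w ^ (2 ^ (j + 1))), (1 : ℝ) / p
            ≤ (1 / (2 ^ j * Real.log w)) *
              (Real.exp 1 / q.totient * (2 * (2 ^ j * Real.log w)) + C) :=
              h4.trans (mul_le_mul_of_nonneg_left h5 (by positivity))
          _ = 2 * Real.exp 1 / q.totient + C / (2 ^ j * Real.log w) := by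
              field_simp
          _ ≤ 2 * 3 / q.totient + C / Real.log w := by
              gcongr
          _ ≤ 2 * 3 / q.totient + 1 / q.totient := by gcongr
          _ = 7 / q.totient := by ring
      calc ∑ p ∈ cls q a w (w ^ (2 ^ (j + 1))), (1 : ℝ) / p
          ≤ ∑ p ∈ cls q a w (w ^ (2 ^ j)), (1 : ℝ) / p +
            ∑ p ∈ cls q a (w ^ (2 ^ j)) (w ^ (2 ^ (j + 1))), (1 : ℝ) / p := h1.trans h2
        _ ≤ j * (7 / q.totient) + 7 / q.totient := add_le_add ih h3
        _ = (j + 1 : ℕ) * (7 / q.totient) := by push_cast; ring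
  -- choose j
  have hx0 : 0 < x := hw0.trans_le hx
  have hlx : Real.log w ≤ Real.log x := Real.log_le_log hw0 hx
  have hr1 : 1 ≤ Real.log x / Real.log w := by
    rw [le_div_iff₀ hlw0]; linarith
  have hr0 : 0 < Real.log x / Real.log w := by linarith
  have hlr : 0 ≤ Real.log (Real.log x / Real.log w) := Real.log_nonneg hr1
  have hl2 : (0.5 : ℝ) ≤ Real.log 2 := by
    have := Real.log_two_gt_d9; linarith
  set j : ℕ := ⌈Real.log (Real.log x / Real.log w) / Real.log 2⌉₊ with hj
  have hj1 : Real.log (Real.log x / Real.log w) / Real.log 2 ≤ j := Nat.le_ceil _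
  have hj2 : (j : ℝ) < Real.log (Real.log x / Real.log w) / Real.log 2 + 1 :=
    Nat.ceil_lt_add_one (div_nonneg hlr (by linarith))
  have hxj : x ≤ w ^ (2 ^ j) := by
    rw [← Real.log_le_log_iff hx0 (by positivity), Real.log_pow]
    push_cast
    rw [← div_le_iff₀ hlw0, ← Real.log_le_log_iff hr0 (by positivity), Real.log_pow]
    rw [div_le_iff₀ (by linarith)] at hj1
    exact hj1
  have h6 : (j : ℝ) ≤ 2 * Real.log (Real.log x / Real.log w) + 1 := by
    refine hj2.le.trans ?_
    have : Real.log (Real.log x / Real.log w) / Real.log 2 ≤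
        2 * Real.log (Real.log x / Real.log w) := by
      rw [div_le_iff₀ (by linarith)]
      nlinarith
    linarith
  calc ∑ p ∈ cls q a w x, (1 : ℝ) / p
      ≤ ∑ p ∈ cls q a w (w ^ (2 ^ j)), (1 : ℝ) / p :=
        Finset.sum_le_sum_of_subset_of_nonneg (cls_mono hx0.le hxj) (fun p _ _ => by positivity)
    _ ≤ j * (7 / q.totient) := key j
    _ ≤ (2 * Real.log (Real.log x / Real.log w) + 1) * (7 / q.totient) := by gcongr
    _ ≤ (2 * Real.log (Real.log x / Real.log w) + 1) * (9 / q.totient) := by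
        gcongr
        norm_num
    _ = 9 / q.totient * (1 + 2 * Real.log (Real.log x / Real.log w)) := by ring

end Pool.Agent.Helper92.CB
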