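import Pool.Agent.Helper92.CB.RareK

/-!
Prime ideals of a number field whose norm lies in a given unit class modulo `q`.
-/

namespace Pool.Agent.Helper92.CB

open NumberField Ideal

variable (K : Type*) [Field K] [NumberField K]

/-- Mertens type upper bound for prime ideals with norm in the class of `a`, logarithmic weights;
the constant works for all unit classes. -/
theorem sumK_class_le (q : ℕ) [NeZero q] :
    ∃ C : ℝ, 0 ≤ C ∧ ∀ a : ZMod q, IsUnit a → ∀ x : ℝ, Real.exp 1 ≤ x →
      ∀ S : Finset (Ideal (𝓞 K)),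
      (∀ P ∈ S, P.IsPrime ∧ P ≠ ⊥ ∧ ((absNorm P : ℕ) : ZMod q) = a ∧ (absNorm P : ℝ) ≤ x) →
      ∑ P ∈ S, Real.log (absNorm P) / absNorm P ≤
        Module.finrank ℚ K * Real.exp 1 / q.totient * Real.log x + C := by
  classical
  have hCs : ∀ a : ZMod q, ∃ C : ℝ, 0 ≤ C ∧ (IsUnit a → ∀ w x : ℝ, Real.exp 1 ≤ x →
      ∑ p ∈ cls q a w x, Real.log p / p ≤ Real.exp 1 / q.totient * Real.log x + C) := by
    intro a
    by_cases ha : IsUnit a
    · obtain ⟨C, hC0, hC⟩ := sum_log_le ha
      exact ⟨C, hC0, fun _ => hC⟩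
    · exact ⟨0, le_rfl, fun h => absurd h ha⟩
  choose Cf hCf0 hCf using hCs
  set C : ℝ := ∑ a : ZMod q, Cf a with hCdef
  have hC0 : 0 ≤ C := Finset.sum_nonneg fun a _ => hCf0 a
  have hCa : ∀ a, Cf a ≤ C := fun a =>
    Finset.single_le_sum (f := Cf) (fun b _ => hCf0 b) (Finset.mem_univ a)
  have hsum : Summable fun m : ℕ => 4 / (m : ℝ) ^ ((3 : ℝ) / 2) := by
    have : Summable fun m : ℕ => 1 / (m : ℝ) ^ ((3 : ℝ) / 2) :=
      Real.summable_one_div_nat_rpow.mpr (by norm_num)
    have h2 := this.mul_left 4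
    refine h2.congr fun m => ?_
    ring
  set D : ℝ := ∑' m : ℕ, 4 / (m : ℝ) ^ ((3 : ℝ) / 2) with hD
  have hD0 : 0 ≤ D := tsum_nonneg fun m => by positivity
  set n : ℝ := (Module.finrank ℚ K : ℝ) with hn
  have hn0 : 0 ≤ n := Nat.cast_nonneg _
  refine ⟨n * C + n * D, by positivity, fun a ha x hx S hS => ?_⟩
  have hC : ∑ p ∈ cls q a 0 x, Real.log p / p ≤ Real.exp 1 / q.totient * Real.log x + C :=
    (hCf a ha 0 x hx).trans (by linarith [hCa a])
  have hx0 : 0 < x := (Real.exp_pos 1).trans_le hx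
  rw [← Finset.sum_filter_add_sum_filter_not S (fun P => deg K P = 1)]
  have h1 : ∑ P ∈ S.filter (fun P => deg K P = 1), Real.log (absNorm P) / absNorm P ≤
      n * (Real.exp 1 / q.totient * Real.log x + C) := by
    have e1 : ∑ P ∈ S.filter (fun P => deg K P = 1), Real.log (absNorm P) / absNorm P =
        ∑ P ∈ S.filter (fun P => deg K P = 1),
          (fun p : ℕ => Real.log p / p) (chr K P) := by
      refine Finset.sum_congr rfl fun P hP => ?_
      have hP' := Finset.mem_filter.mp hP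
      have hs := chr_spec K (hS P hP'.1).1 (hS P hP'.1).2.1
      rw [hs.2.2.2, hP'.2, pow_one]
    rw [e1]
    refine (sum_group K _ (fun P hP => ?_) (cls q a 0 x) (fun P hP => ?_)
      (fun p : ℕ => Real.log p / p) (fun p => ?_)).trans ?_
    · have hP' := Finset.mem_filter.mp hP
      exact ⟨(hS P hP'.1).1, (hS P hP'.1).2.1⟩
    · have hP' := Finset.mem_filter.mp hP
      have hs := chr_spec K (hS P hP'.1).1 (hS P hP'.1).2.1
      have he : absNorm P = chr K P := by rw [hs.2.2.2, hP'.2, pow_one]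
      rw [mem_cls hx0.le, ← he]
      refine ⟨he ▸ hs.1, (hS P hP'.1).2.2.1, ?_, (hS P hP'.1).2.2.2⟩
      rw [he]
      exact_mod_cast hs.1.pos
    · rcases Nat.eq_zero_or_pos p with h | h
      · subst h; simp
      · exact div_nonneg (Real.log_nonneg (by exact_mod_cast h)) (Nat.cast_nonneg _)
    · exact mul_le_mul_of_nonneg_left hC hn0
  have h2 : ∑ P ∈ S.filter (fun P => ¬ deg K P = 1), Real.log (absNorm P) / absNorm P ≤
      n * D := by
    have e1 : ∑ P ∈ S.filter (fun P => ¬ deg K P = 1), Real.log (absNorm P) / absNorm P ≤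
        ∑ P ∈ S.filter (fun P => ¬ deg K P = 1),
          (fun m : ℕ => 4 / (m : ℝ) ^ ((3 : ℝ) / 2)) (chr K P) := by
      refine Finset.sum_le_sum fun P hP => ?_
      have hP' := Finset.mem_filter.mp hP
      have hs := chr_spec K (hS P hP'.1).1 (hS P hP'.1).2.1
      have hf : 2 ≤ deg K P := by
        have := hs.2.1
        have h3 := hP'.2
        omega
      have hp0 : (0 : ℝ) < chr K P := by exact_mod_cast hs.1.pos
      have hp1 : (1 : ℝ) ≤ chr K P := by exact_mod_cast hs.1.one_lt.le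
      have hN : ((chr K P : ℝ)) ^ 2 ≤ absNorm P := by
        rw [hs.2.2.2]
        push_cast
        exact pow_le_pow_right₀ hp1 hf
      have hN0 : (0 : ℝ) < absNorm P := lt_of_lt_of_le (by positivity) hN
      have hl : Real.log (absNorm P) ≤ 4 * (absNorm P : ℝ) ^ ((1 : ℝ) / 4) := by
        have := Real.log_le_rpow_div hN0.le (show (0 : ℝ) < 1 / 4 by norm_num)
        calc Real.log (absNorm P) ≤ (absNorm P : ℝ) ^ ((1 : ℝ) / 4) / (1 / 4) := this
          _ = 4 * (absNorm P : ℝ) ^ ((1 : ℝ) / 4) := by ring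
      have hr : (chr K P : ℝ) ^ ((3 : ℝ) / 2) ≤ (absNorm P : ℝ) ^ ((3 : ℝ) / 4) := by
        calc (chr K P : ℝ) ^ ((3 : ℝ) / 2) = (((chr K P : ℝ)) ^ (2 : ℕ)) ^ ((3 : ℝ) / 4) := by
              rw [← Real.rpow_natCast, ← Real.rpow_mul hp0.le]
              norm_num
          _ ≤ (absNorm P : ℝ) ^ ((3 : ℝ) / 4) :=
              Real.rpow_le_rpow (by positivity) hN (by norm_num)
      have hr0 : 0 < (chr K P : ℝ) ^ ((3 : ℝ) / 2) := by positivity
      have hr1 : 0 < (absNorm P : ℝ) ^ ((3 : ℝ) / 4) := by positivity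
      have hprod : (absNorm P : ℝ) ^ ((1 : ℝ) / 4) * (absNorm P : ℝ) ^ ((3 : ℝ) / 4) =
          absNorm P := by
        rw [← Real.rpow_add hN0]
        norm_num
      show Real.log (absNorm P) / absNorm P ≤ 4 / (chr K P : ℝ) ^ ((3 : ℝ) / 2)
      rw [div_le_div_iff₀ hN0 hr0]
      calc Real.log (absNorm P) * (chr K P : ℝ) ^ ((3 : ℝ) / 2)
          ≤ (4 * (absNorm P : ℝ) ^ ((1 : ℝ) / 4)) * (absNorm P : ℝ) ^ ((3 : ℝ) / 4) := by
            refine mul_le_mul hl hr hr0.le (by positivity)
        _ = 4 * absNorm P := by rw [mul_assoc, hprod]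
    refine e1.trans ((sum_group K _ (fun P hP => ?_)
      ((S.filter (fun P => ¬ deg K P = 1)).image (chr K)) (fun P hP => ?_)
      (fun m : ℕ => 4 / (m : ℝ) ^ ((3 : ℝ) / 2)) (fun p => by positivity)).trans ?_)
    · have hP' := Finset.mem_filter.mp hP
      exact ⟨(hS P hP'.1).1, (hS P hP'.1).2.1⟩
    · exact Finset.mem_image_of_mem _ hP
    · refine mul_le_mul_of_nonneg_left ?_ hn0
      exact hsum.sum_le_tsum _ (fun m _ => by positivity)
  calc _ ≤ n * (Real.exp 1 / q.totient * Real.log x + C) + n * D := add_le_add h1 h2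
    _ = n * Real.exp 1 / q.totient * Real.log x + (n * C + n * D) := by ring

/-- Dyadic summation for a finite family with sizes `N i`. -/
theorem inv_of_log {ι : Type*} (S : Finset ι) (N : ι → ℝ) (A C : ℝ) (hA : 0 < A) (hC0 : 0 ≤ C)
    (hS : ∀ x : ℝ, Real.exp 1 ≤ x → ∀ T ⊆ S, (∀ i ∈ T, N i ≤ x) →
      ∑ i ∈ T, Real.log (N i) / N i ≤ A * Real.log x + C)
    (w x : ℝ) (hw : Real.exp (1 + C / A) ≤ w) (hx : w ≤ x) (hN : ∀ i ∈ S, w < N i ∧ N i ≤ x) :
    ∑ i ∈ S, 1 / N i ≤ 3 * A * (1 + 2 * Real.log (Real.log x / Real.log w)) := by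
  classical
  have hCA : 0 ≤ C / A := by positivity
  have hw0 : 0 < w := (Real.exp_pos _).trans_le hw
  have hlw : 1 + C / A ≤ Real.log w := by
    rw [Real.le_log_iff_exp_le hw0]; exact hw
  have hlw1 : 1 ≤ Real.log w := by linarith
  have hlw0 : 0 < Real.log w := by linarith
  have hw1 : 1 ≤ w := by
    by_contra h
    push Not at h
    have := Real.log_nonpos hw0.le h.le
    linarith
  have he : Real.exp 1 ≤ w := (Real.exp_le_exp.mpr (by linarith)).trans hw
  have hCw : C / Real.log w ≤ A := by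
    rw [div_le_iff₀ hlw0]
    have : C / A ≤ Real.log w := by linarith
    rw [div_le_iff₀ hA] at this
    linarith
  -- blocks
  have key : ∀ j : ℕ, ∀ T ⊆ S, (∀ i ∈ T, N i ≤ w ^ (2 ^ j)) →
      ∑ i ∈ T, 1 / N i ≤ j * (3 * A) := by
    intro j
    induction j with
    | zero =>
      intro T hTS hT
      have : T = ∅ := by
        rw [Finset.eq_empty_iff_forall_notMem]
        intro i hi
        have h1 := (hN i (hTS hi)).1
        have h2 := hT i hi
        rw [pow_zero, pow_one] at h2
        linarith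
      rw [this]
      simp
    | succ j ih =>
      intro T hTS hT
      have hyx : w ^ (2 ^ j) ≤ w ^ (2 ^ (j + 1)) :=
        pow_le_pow_right₀ hw1 (Nat.pow_le_pow_right (by norm_num) (Nat.le_succ j))
      rw [← Finset.sum_filter_add_sum_filter_not T (fun i => N i ≤ w ^ (2 ^ j))]
      have h1 := ih (T.filter (fun i => N i ≤ w ^ (2 ^ j)))
        ((Finset.filter_subset _ _).trans hTS) (fun i hi => (Finset.mem_filter.mp hi).2)
      have h3 : ∑ i ∈ T.filter (fun i => ¬ N i ≤ w ^ (2 ^ j)), 1 / N i ≤ 3 * A := by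
        have hl : Real.log (w ^ (2 ^ j)) = 2 ^ j * Real.log w := by
          rw [Real.log_pow]; push_cast; ring
        have hl' : Real.log (w ^ (2 ^ (j + 1))) = 2 * (2 ^ j * Real.log w) := by
          rw [Real.log_pow]; push_cast; ring
        have hpj : (1 : ℝ) ≤ 2 ^ j := one_le_pow₀ (by norm_num)
        have hL : 0 < 2 ^ j * Real.log w := by positivity
        have hLw : Real.log w ≤ 2 ^ j * Real.log w := by nlinarith
        have h4 : ∑ i ∈ T.filter (fun i => ¬ N i ≤ w ^ (2 ^ j)), 1 / N i ≤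
            (1 / (2 ^ j * Real.log w)) *
              ∑ i ∈ T.filter (fun i => ¬ N i ≤ w ^ (2 ^ j)), Real.log (N i) / N i := by
          rw [Finset.mul_sum]
          refine Finset.sum_le_sum fun i hi => ?_
          obtain ⟨hiT, hi2⟩ := Finset.mem_filter.mp hi
          push Not at hi2
          have hp0 : (0 : ℝ) < N i := hw0.trans (hN i (hTS hiT)).1
          have h5 : 2 ^ j * Real.log w ≤ Real.log (N i) := by
            rw [← hl]
            exact Real.log_le_log (by positivity) hi2.le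
          rw [div_mul_div_comm, one_mul, div_le_div_iff₀ hp0 (by positivity)]
          nlinarith
        have hxe : Real.exp 1 ≤ w ^ (2 ^ (j + 1)) := by
          refine he.trans ?_
          calc w = w ^ 1 := (pow_one w).symm
            _ ≤ w ^ (2 ^ (j + 1)) := pow_le_pow_right₀ hw1 Nat.one_le_two_pow
        have h5 := hS (w ^ (2 ^ (j + 1))) hxe (T.filter (fun i => ¬ N i ≤ w ^ (2 ^ j)))
          ((Finset.filter_subset _ _).trans hTS)
          (fun i hi => hT i (Finset.mem_filter.mp hi).1)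
        rw [hl'] at h5
        calc ∑ i ∈ T.filter (fun i => ¬ N i ≤ w ^ (2 ^ j)), 1 / N i
            ≤ (1 / (2 ^ j * Real.log w)) * (A * (2 * (2 ^ j * Real.log w)) + C) :=
              h4.trans (mul_le_mul_of_nonneg_left h5 (by positivity))
          _ = 2 * A + C / (2 ^ j * Real.log w) := by
              field_simp
          _ ≤ 2 * A + C / Real.log w := by
              gcongr
          _ ≤ 3 * A := by linarith
      calc _ ≤ j * (3 * A) + 3 * A := add_le_add h1 h3
        _ = (j + 1 : ℕ) * (3 * A) := by push_cast; ring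
  -- choose j
  have hx0 : 0 < x := hw0.trans_le hx
  have hlx : Real.log w ≤ Real.log x := Real.log_le_log hw0 hx
  have hr1 : 1 ≤ Real.log x / Real.log w := by
    rw [le_div_iff₀ hlw0]; linarith
  have hr0 : 0 < Real.log x / Real.log w := by linarith
  have hlr : 0 ≤ Real.log (Real.log x / Real.log w) := Real.log_nonneg hr1
  have hl2 : (0.5 : ℝ) ≤ Real.log 2 := by
    have := Real.log_two_gt_d9; linarith
  set j : ℕ := ⌈Real.log (Real.log x / Real.log w) / Real.log 2⌉₊ with hj
  have hj1 : Real.log (Real.log x / Real.log w) / Real.log 2 ≤ j := Nat.le_ceil _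
  have hj2 : (j : ℝ) < Real.log (Real.log x / Real.log w) / Real.log 2 + 1 :=
    Nat.ceil_lt_add_one (div_nonneg hlr (by linarith))
  have hxj : x ≤ w ^ (2 ^ j) := by
    rw [← Real.log_le_log_iff hx0 (by positivity), Real.log_pow]
    push_cast
    rw [← div_le_iff₀ hlw0, ← Real.log_le_log_iff hr0 (by positivity), Real.log_pow]
    rw [div_le_iff₀ (by linarith)] at hj1
    exact hj1
  have h6 : (j : ℝ) ≤ 2 * Real.log (Real.log x / Real.log w) + 1 := by
    refine hj2.le.trans ?_
    have : Real.log (Real.log x / Real.log w) / Real.log 2 ≤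
        2 * Real.log (Real.log x / Real.log w) := by
      rw [div_le_iff₀ (by linarith)]
      nlinarith
    linarith
  calc ∑ i ∈ S, 1 / N i
      ≤ j * (3 * A) := key j S le_rfl (fun i hi => (hN i hi).2.trans hxj)
    _ ≤ (2 * Real.log (Real.log x / Real.log w) + 1) * (3 * A) := by gcongr
    _ = 3 * A * (1 + 2 * Real.log (Real.log x / Real.log w)) := by ring

/-- Prime ideals in a window with norm in a unit class modulo `q`. -/
theorem invK_class_le (q : ℕ) [NeZero q] :
    ∃ w0 : ℝ, Real.exp 1 ≤ w0 ∧ ∀ a : ZMod q, IsUnit a → ∀ w x : ℝ, w0 ≤ w → w ≤ x →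
      ∀ S : Finset (Ideal (𝓞 K)),
      (∀ P ∈ S, P.IsPrime ∧ P ≠ ⊥ ∧ ((absNorm P : ℕ) : ZMod q) = a ∧ w < (absNorm P : ℝ) ∧
        (absNorm P : ℝ) ≤ x) →
      ∑ P ∈ S, (1 : ℝ) / absNorm P ≤
        9 * Module.finrank ℚ K / q.totient * (1 + 2 * Real.log (Real.log x / Real.log w)) := by
  obtain ⟨C, hC0, hC⟩ := sumK_class_le K q
  have hq : (0 : ℝ) < q.totient := by exact_mod_cast q.totient.pos_of_neZero
  have hn : (0 : ℝ) < Module.finrank ℚ K := by exact_mod_cast Module.finrank_pos
  set A : ℝ := Module.finrank ℚ K * Real.exp 1 / q.totient with hA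
  have hA0 : 0 < A := by positivity
  have he3 : Real.exp 1 ≤ 3 := by
    have := Real.exp_one_lt_d9; linarith
  refine ⟨Real.exp (1 + C / A), Real.exp_le_exp.mpr (by
    have : 0 ≤ C / A := by positivity
    linarith), fun a ha w x hw hx S hS => ?_⟩
  have h := inv_of_log S (fun P => ((absNorm P : ℕ) : ℝ)) A C hA0 hC0 (fun y hy T hT hTy => ?_)
    w x hw hx (fun P hP => ⟨(hS P hP).2.2.2.1, (hS P hP).2.2.2.2⟩)
  · refine h.trans ?_
    have hw0 : 0 < w := (Real.exp_pos _).trans_le hw
    have hlw : 1 + C / A ≤ Real.log w := by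
      rw [Real.le_log_iff_exp_le hw0]; exact hw
    have hlw0 : 0 < Real.log w := by
      have : 0 ≤ C / A := by positivity
      linarith
    have hlr : 0 ≤ Real.log (Real.log x / Real.log w) := by
      refine Real.log_nonneg ?_
      rw [le_div_iff₀ hlw0, one_mul]
      exact Real.log_le_log hw0 hx
    refine mul_le_mul_of_nonneg_right ?_ (by linarith)
    rw [hA]
    calc 3 * (Module.finrank ℚ K * Real.exp 1 / q.totient)
        = Real.exp 1 * (3 * Module.finrank ℚ K / q.totient) := by ring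
      _ ≤ 3 * (3 * Module.finrank ℚ K / q.totient) := by gcongr
      _ = 9 * Module.finrank ℚ K / q.totient := by ring
  · exact hC a ha y hy T (fun P hP =>
      ⟨(hS P (hT hP)).1, (hS P (hT hP)).2.1, (hS P (hT hP)).2.2.1, hTy P hP⟩)

end Pool.Agent.Helper92.CB
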