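import Pool.Agent.Helper92.CB.Unr

/-!
# CB: generic specialisation of a pair of polynomials over a domain
-/

set_option autoImplicit false

namespace Pool.Agent.Helper92.CB

open Polynomial Pool.Agent.Helper16.CB

section Lift

variable {R : Type} [CommRing R] [IsDomain R]

/-- a common denominator of finitely many polynomials -/
theorem common_den (T : Finset (FractionRing R)[X]) :
    ∃ δ : R, δ ≠ 0 ∧ ∀ f ∈ T, ∃ g : R[X], g.map (algebraMap R (FractionRing R)) =
      C (algebraMap R (FractionRing R) δ) * f := by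
  classical
  induction T using Finset.induction_on with
  | empty => exact ⟨1, one_ne_zero, by simp⟩
  | insert f T hf ih =>
    obtain ⟨δ, hδ, hT⟩ := ih
    obtain ⟨b, hbm, hb⟩ := IsLocalization.integerNormalization_spec (nonZeroDivisors R) f
    have hb' : (IsLocalization.integerNormalization (nonZeroDivisors R) f).map
        (algebraMap R (FractionRing R)) = C (algebraMap R (FractionRing R) b) * f := by
      rw [hb, ← algebraMap_smul (FractionRing R) b f, Polynomial.smul_eq_C_mul]
    refine ⟨b * δ, mul_ne_zero (nonZeroDivisors.ne_zero hbm) hδ, fun g hg => ?_⟩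
    rcases Finset.mem_insert.mp hg with rfl | hg
    · refine ⟨C δ * IsLocalization.integerNormalization (nonZeroDivisors R) g, ?_⟩
      rw [Polynomial.map_mul, Polynomial.map_C, hb', map_mul, C_mul]
      ring
    · obtain ⟨g', hg'⟩ := hT g hg
      refine ⟨C (b : R) * g', ?_⟩
      rw [Polynomial.map_mul, Polynomial.map_C, hg', map_mul, C_mul]
      ring

/-- Specialisation of finitely many polynomials over the field of fractions. -/
theorem exists_lift (T : Finset (FractionRing R)[X]) :
    ∃ δ : R, δ ≠ 0 ∧ ∀ (M : Type) [Field M] (φ : R →+* M), φ δ ≠ 0 →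
      ∃ (S : Type) (_ : CommRing S) (i : R →+* S) (j : S →+* FractionRing R) (Φ : S →+* M),
        Function.Injective j ∧ j.comp i = algebraMap R (FractionRing R) ∧ Φ.comp i = φ ∧
        ∀ f ∈ T, ∃ g : S[X], g.map j = f := by
  classical
  obtain ⟨δ, hδ, hT⟩ := common_den T
  refine ⟨δ, hδ, fun M _ φ hφ => ?_⟩
  have hιδ : IsUnit (algebraMap R (FractionRing R) δ) := by
    rw [isUnit_iff_ne_zero, Ne, map_eq_zero_iff _ (IsFractionRing.injective R (FractionRing R))]
    exact hδ
  set S := Localization.Away δ with hS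
  set j : S →+* FractionRing R := IsLocalization.Away.lift δ hιδ with hj
  set Φ : S →+* M := IsLocalization.Away.lift δ hφ.isUnit with hΦ
  have hji : j.comp (algebraMap R S) = algebraMap R (FractionRing R) :=
    IsLocalization.Away.lift_comp δ hιδ
  have hinj : Function.Injective j := by
    rw [injective_iff_map_eq_zero]
    intro x hx
    obtain ⟨n, r, hr⟩ := IsLocalization.Away.surj δ x
    have h1 : j (x * algebraMap R S δ ^ n) = 0 := by rw [map_mul, hx, zero_mul]
    rw [hr] at h1
    have h2 : algebraMap R (FractionRing R) r = 0 := by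
      rw [← hji]
      exact h1
    rw [map_eq_zero_iff _ (IsFractionRing.injective R (FractionRing R))] at h2
    rw [h2, map_zero] at hr
    exact (((IsLocalization.Away.algebraMap_isUnit δ).pow n).mul_left_eq_zero).mp hr
  refine ⟨S, inferInstance, algebraMap R S, j, Φ, hinj, hji,
    IsLocalization.Away.lift_comp δ hφ.isUnit, fun f hf => ?_⟩
  obtain ⟨g, hg⟩ := hT f hf
  refine ⟨C (IsLocalization.Away.invSelf δ) * g.map (algebraMap R S), ?_⟩
  rw [Polynomial.map_mul, Polynomial.map_C, Polynomial.map_map, hji, hg, ← mul_assoc, ← C_mul]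
  have h3 : j (IsLocalization.Away.invSelf δ) * algebraMap R (FractionRing R) δ = 1 := by
    have h4 := IsLocalization.Away.mul_invSelf (S := S) δ
    have h5 := congrArg j h4
    rw [map_mul, map_one] at h5
    rw [mul_comm, ← hji]
    exact h5
  rw [h3, C_1, one_mul]

end Lift

/-- **SPEC.** Outside a hypersurface of `R` all irreducible factors of the specialised pair have
degree at most `dm` or satisfy the local condition, if this holds over the field of fractions. -/
theorem spec_good {R : Type} [CommRing R] [IsDomain R] (a b : R[X]) (ha : a ≠ 0) (hb : b ≠ 0)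
    (dm : ℕ)
    (hP : ∀ P : (FractionRing R)[X], Irreducible P →
      P ∣ (a * b).map (algebraMap R (FractionRing R)) → P.natDegree ≤ dm ∨
        Unr P (a.map (algebraMap R (FractionRing R))) (b.map (algebraMap R (FractionRing R)))) :
    ∃ δ : R, δ ≠ 0 ∧ ∀ (M : Type) [Field M] (φ : R →+* M), φ δ ≠ 0 →
      a.map φ ≠ 0 ∧ b.map φ ≠ 0 ∧ ∀ Q : M[X], Irreducible Q → Q ∣ (a * b).map φ →
        Q.natDegree ≤ dm ∨ LC (Ideal.span {Q}) (a.map φ) (b.map φ) := by
  classical
  set F := FractionRing R with hF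
  set ι : R →+* F := algebraMap R F with hι
  have hinj : Function.Injective ι := IsFractionRing.injective R F
  set ab : F[X] := (a * b).map ι with hab
  have hab0 : ab ≠ 0 := (Polynomial.map_ne_zero_iff hinj).mpr (mul_ne_zero ha hb)
  -- the monic irreducible factors
  set N := UniqueFactorizationMonoid.normalizedFactors ab with hN
  have hNirr : ∀ P ∈ N, Irreducible P := fun P hP =>
    UniqueFactorizationMonoid.irreducible_of_normalized_factor P hP
  have hNmon : ∀ P ∈ N, P.Monic := fun P hP => by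
    have h1 := UniqueFactorizationMonoid.normalize_normalized_factor P hP
    rw [← h1]
    exact Polynomial.monic_normalize (hNirr P hP).ne_zero
  obtain ⟨u, hu⟩ := UniqueFactorizationMonoid.prod_normalizedFactors hab0
  obtain ⟨c, hc, hcu⟩ := Polynomial.isUnit_iff.mp u.isUnit
  -- the data
  have hdat : ∀ P : F[X], ∃ (al be : ℕ) (a' b' g h t A1 B1 A2 B2 A3 B3 : F[X]), P ∈ N →
      (P.natDegree ≤ dm ∨ (a.map ι = P ^ al * a' ∧ b.map ι = P ^ be * b' ∧
        A1 * P + B1 * a' = 1 ∧ A2 * P + B2 * b' = 1 ∧ A3 * P + B3 * g = 1 ∧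
        g ^ 2 * ((-1) ^ (al * be) * a' ^ be * b' ^ al) - h ^ 2 = P * t)) := by
    intro P
    by_cases hPN : P ∈ N
    · rcases hP P (hNirr P hPN) (UniqueFactorizationMonoid.dvd_of_mem_normalizedFactors hPN)
        with h | ⟨al, be, a', b', g, h, h1, h2, h3, h4, h5, t, ht⟩
      · exact ⟨0, 0, 0, 0, 0, 0, 0, 0, 0, 0, 0, 0, 0, fun _ => Or.inl h⟩
      · obtain ⟨A1, B1, e1⟩ := (EuclideanDomain.dvd_or_coprime P a' (hNirr P hPN)).resolve_left h3
        obtain ⟨A2, B2, e2⟩ := (EuclideanDomain.dvd_or_coprime P b' (hNirr P hPN)).resolve_left h4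
        obtain ⟨A3, B3, e3⟩ := (EuclideanDomain.dvd_or_coprime P g (hNirr P hPN)).resolve_left h5
        exact ⟨al, be, a', b', g, h, t, A1, B1, A2, B2, A3, B3,
          fun _ => Or.inr ⟨h1, h2, e1, e2, e3, ht⟩⟩
    · exact ⟨0, 0, 0, 0, 0, 0, 0, 0, 0, 0, 0, 0, 0, fun h => absurd h hPN⟩
  choose al be a' b' g h t A1 B1 A2 B2 A3 B3 hdat using hdat
  set T : Finset F[X] := insert (C c) (insert (C c⁻¹) (N.toFinset.biUnion fun P =>
    {P, a' P, b' P, g P, h P, t P, A1 P, B1 P, A2 P, B2 P, A3 P, B3 P})) with hT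
  obtain ⟨δ, hδ, hlift⟩ := exists_lift T
  refine ⟨δ, hδ, fun M _ φ hφ => ?_⟩
  obtain ⟨S, iS, i, j, Φ, hj, hji, hΦi, hTl⟩ := hlift M φ hφ
  have hjm : Function.Injective (Polynomial.map j) := Polynomial.map_injective j hj
  have hTP : ∀ P ∈ N, ∀ f ∈ ({P, a' P, b' P, g P, h P, t P, A1 P, B1 P, A2 P, B2 P, A3 P, B3 P} :
      Finset F[X]), ∃ g : S[X], g.map j = f := by
    intro P hPN f hf
    refine hTl f (Finset.mem_insert_of_mem (Finset.mem_insert_of_mem ?_))
    exact Finset.mem_biUnion.mpr ⟨P, Multiset.mem_toFinset.mpr hPN, hf⟩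
  obtain ⟨c1, hc1⟩ := hTl (C c) (Finset.mem_insert_self _ _)
  obtain ⟨c2, hc2⟩ := hTl (C c⁻¹) (Finset.mem_insert_of_mem (Finset.mem_insert_self _ _))
  have hcc : c1 * c2 = 1 := by
    apply hjm
    rw [Polynomial.map_mul, hc1, hc2, ← C_mul, mul_inv_cancel₀ hc.ne_zero, Polynomial.map_one, C_1]
  -- lifts of the factors
  have hex : ∀ P : F[X], ∃ p : S[X], P ∈ N → p.map j = P := by
    intro P
    by_cases hPN : P ∈ N
    · obtain ⟨p, hp⟩ := hTP P hPN P (by simp)
      exact ⟨p, fun _ => hp⟩
    · exact ⟨0, fun h => absurd h hPN⟩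
  choose p hp using hex
  have hpmon : ∀ P ∈ N, (p P).Monic := fun P hPN =>
    Polynomial.monic_of_injective hj (by rw [hp P hPN]; exact hNmon P hPN)
  have hfac : (a * b).map i = (N.map p).prod * c1 := by
    apply hjm
    rw [Polynomial.map_mul j, hc1, Polynomial.map_map, hji, Polynomial.map_multiset_prod,
      Multiset.map_map]
    have h1 : N.map (Polynomial.map j ∘ p) = N := by
      conv_rhs => rw [← Multiset.map_id N]
      exact Multiset.map_congr rfl fun P hPN => hp P hPN
    rw [h1, hcu]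
    exact hu.symm
  have hfacφ : (a * b).map φ = (N.map fun P => (p P).map Φ).prod * c1.map Φ := by
    rw [← hΦi, ← Polynomial.map_map, hfac, Polynomial.map_mul, Polynomial.map_multiset_prod,
      Multiset.map_map]
    rfl
  have hunit : IsUnit (c1.map Φ) := by
    refine IsUnit.of_mul_eq_one (c2.map Φ) ?_
    rw [← Polynomial.map_mul, hcc, Polynomial.map_one]
  have hmonΦ : ∀ P ∈ N, ((p P).map Φ).Monic := fun P hPN => (hpmon P hPN).map Φ
  have habφ : (a * b).map φ ≠ 0 := by
    rw [hfacφ]
    exact mul_ne_zero (monic_multiset_prod_of_monic N _ hmonΦ).ne_zero hunit.ne_zero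
  have habφ' : a.map φ * b.map φ ≠ 0 := by rwa [← Polynomial.map_mul]
  refine ⟨left_ne_zero_of_mul habφ', right_ne_zero_of_mul habφ', fun Q hQ hQd => ?_⟩
  have hQp := hQ.prime
  obtain ⟨P, hPN, hQP⟩ : ∃ P ∈ N, Q ∣ (p P).map Φ := by
    rw [hfacφ] at hQd
    rcases hQp.dvd_or_dvd hQd with h1 | h1
    · obtain ⟨x, hx, hQx⟩ := hQp.exists_mem_multiset_dvd h1
      obtain ⟨P, hPN, rfl⟩ := Multiset.mem_map.mp hx
      exact ⟨P, hPN, hQx⟩
    · exact absurd (isUnit_of_dvd_unit h1 hunit) hQ.not_isUnit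
  rcases hdat P hPN with h1 | ⟨h1, h2, e1, e2, e3, ht⟩
  · left
    refine (natDegree_le_of_dvd hQP (hmonΦ P hPN).ne_zero).trans ?_
    rw [(hpmon P hPN).natDegree_map, ← natDegree_map_eq_of_injective hj, hp P hPN]
    exact h1
  · right
    obtain ⟨xa, hxa⟩ := hTP P hPN (a' P) (by simp)
    obtain ⟨xb, hxb⟩ := hTP P hPN (b' P) (by simp)
    obtain ⟨xg, hxg⟩ := hTP P hPN (g P) (by simp)
    obtain ⟨xh, hxh⟩ := hTP P hPN (h P) (by simp)
    obtain ⟨xt, hxt⟩ := hTP P hPN (t P) (by simp)
    obtain ⟨xA1, hxA1⟩ := hTP P hPN (A1 P) (by simp)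
    obtain ⟨xB1, hxB1⟩ := hTP P hPN (B1 P) (by simp)
    obtain ⟨xA2, hxA2⟩ := hTP P hPN (A2 P) (by simp)
    obtain ⟨xB2, hxB2⟩ := hTP P hPN (B2 P) (by simp)
    obtain ⟨xA3, hxA3⟩ := hTP P hPN (A3 P) (by simp)
    obtain ⟨xB3, hxB3⟩ := hTP P hPN (B3 P) (by simp)
    have hpP := hp P hPN
    have f1 : a.map i = p P ^ al P * xa := by
      apply hjm
      rw [Polynomial.map_map, hji, Polynomial.map_mul, Polynomial.map_pow, hpP, hxa]
      exact h1
    have f2 : b.map i = p P ^ be P * xb := by
      apply hjm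
      rw [Polynomial.map_map, hji, Polynomial.map_mul, Polynomial.map_pow, hpP, hxb]
      exact h2
    have f3 : xA1 * p P + xB1 * xa = 1 := by
      apply hjm
      simp only [Polynomial.map_add, Polynomial.map_mul, Polynomial.map_one, hpP, hxa, hxA1, hxB1]
      exact e1
    have f4 : xA2 * p P + xB2 * xb = 1 := by
      apply hjm
      simp only [Polynomial.map_add, Polynomial.map_mul, Polynomial.map_one, hpP, hxb, hxA2, hxB2]
      exact e2
    have f5 : xA3 * p P + xB3 * xg = 1 := by
      apply hjm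
      simp only [Polynomial.map_add, Polynomial.map_mul, Polynomial.map_one, hpP, hxg, hxA3, hxB3]
      exact e3
    have f6 : xg ^ 2 * ((-1) ^ (al P * be P) * xa ^ be P * xb ^ al P) - xh ^ 2 = p P * xt := by
      apply hjm
      simp only [Polynomial.map_sub, Polynomial.map_mul, Polynomial.map_pow, Polynomial.map_neg,
        Polynomial.map_one, hpP, hxa, hxb, hxg, hxh, hxt]
      exact ht
    have hcop : ∀ (A B x : S[X]), A * p P + B * x = 1 → ¬ Q ∣ x.map Φ := by
      intro A B x hAB hQx
      apply hQ.not_isUnit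
      have h3 : A.map Φ * (p P).map Φ + B.map Φ * x.map Φ = 1 := by
        rw [← Polynomial.map_mul, ← Polynomial.map_mul, ← Polynomial.map_add, hAB,
          Polynomial.map_one]
      exact isUnit_of_dvd_one (h3 ▸ dvd_add (Dvd.dvd.mul_left hQP _) (Dvd.dvd.mul_left hQx _))
    have ea : a.map φ = (p P).map Φ ^ al P * xa.map Φ := by
      rw [← hΦi, ← Polynomial.map_map, f1, Polynomial.map_mul, Polynomial.map_pow]
    have eb : b.map φ = (p P).map Φ ^ be P * xb.map Φ := by
      rw [← hΦi, ← Polynomial.map_map, f2, Polynomial.map_mul, Polynomial.map_pow]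
    rw [ea, eb]
    refine lc_local hQ (hmonΦ P hPN).ne_zero (al P) (be P) (hcop _ _ _ f3) (hcop _ _ _ f4)
      (g := xg.map Φ) (h := xh.map Φ) (hcop _ _ _ f5) ?_
    have h6 := congrArg (Polynomial.map Φ) f6
    simp only [Polynomial.map_sub, Polynomial.map_mul, Polynomial.map_pow, Polynomial.map_neg,
      Polynomial.map_one] at h6
    rw [h6]
    exact Dvd.dvd.mul_right hQP _

end Pool.Agent.Helper92.CB
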