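import Pool.Agent.Helper16.CB.Defs
import Pool.Agent.Helper56.CB.LcFree

/-!
# CB: unramified symbols

`Unr P a b`: the unit part of the tame symbol of `(a, b)` at the prime element `P` is a square
modulo `P`, up to the square of an element prime to `P`.
-/

set_option autoImplicit false

namespace Pool.Agent.Helper92.CB

open Polynomial Pool.Agent.Helper16.CB Pool.Agent.Helper56.CB

/-- the symbol `(a, b)` is unramified at `P` -/
def Unr {A : Type*} [CommRing A] (P a b : A) : Prop :=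
  ∃ (al be : ℕ) (a' b' g h : A), a = P ^ al * a' ∧ b = P ^ be * b' ∧ ¬ P ∣ a' ∧ ¬ P ∣ b' ∧
    ¬ P ∣ g ∧ P ∣ g ^ 2 * ((-1) ^ (al * be) * a' ^ be * b' ^ al) - h ^ 2

/-- the local condition at an irreducible factor `Q` of `p`, from the relation modulo `Q` -/
theorem lc_local {M : Type*} [Field M] {Q p a' b' g h : M[X]} (hQ : Irreducible Q) (hp : p ≠ 0)
    (al be : ℕ) (ha : ¬ Q ∣ a') (hb : ¬ Q ∣ b') (hg : ¬ Q ∣ g)
    (hd : Q ∣ g ^ 2 * ((-1) ^ (al * be) * a' ^ be * b' ^ al) - h ^ 2) :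
    LC (Ideal.span {Q}) (p ^ al * a') (p ^ be * b') := by
  classical
  have hP0 : Q ≠ 0 := hQ.ne_zero
  have hpr : Prime Q := hQ.prime
  have hfm : FiniteMultiplicity Q p := FiniteMultiplicity.of_prime_left hpr hp
  obtain ⟨G, hG, hPG⟩ := hfm.exists_eq_pow_mul_and_not_dvd
  set w := multiplicity Q p with hw
  have hnd : ∀ (x y : M[X]), ¬ Q ∣ x → ¬ Q ∣ y → ¬ Q ∣ x * y :=
    fun x y hx hy hxy => (hpr.dvd_or_dvd hxy).elim hx hy
  have hnp : ∀ (x : M[X]) (n : ℕ), ¬ Q ∣ x → ¬ Q ∣ x ^ n :=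
    fun x n hx hxn => hx (hpr.dvd_of_dvd_pow hxn)
  have vv : ∀ (n : ℕ) (A : M[X]), ¬ Q ∣ A → Val (Ideal.span {Q}) (p ^ n * A) (w * n) := by
    intro n A hA
    have : p ^ n * A = Q ^ (w * n) * (G ^ n * A) := by
      conv_lhs => rw [hG]
      rw [mul_pow, ← pow_mul]
      ring
    rw [this]
    exact val_of hP0 (hnd _ _ (hnp _ _ hPG) hA) _
  have hPw : ∀ n : ℕ, Q ^ (w * n) ∣ p ^ n := by
    intro n
    conv_rhs => rw [hG]
    rw [mul_pow, ← pow_mul]
    exact dvd_mul_right _ _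
  refine ⟨w * al, w * be, vv al a' ha, vv be b' hb, ?_⟩
  rcases Nat.even_or_odd w with hwe | hwo
  · exact Or.inl ⟨hwe.mul_right _, hwe.mul_right _⟩
  rcases Nat.even_or_odd al with he | he <;> rcases Nat.even_or_odd be with hf | hf
  · exact Or.inl ⟨he.mul_left _, hf.mul_left _⟩
  · refine Or.inr (Or.inr (Or.inl ⟨he.mul_left _, Nat.not_even_iff_odd.2 (hwo.mul hf), ?_⟩))
    obtain ⟨e', he'⟩ := he
    obtain ⟨f', hf'⟩ := hf
    obtain ⟨t, ht⟩ := sq_cancel (x := a') (y := g * (a' ^ f' * b' ^ e')) (h := h) hQ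
      (hnd _ _ hg (hnd _ _ (hnp _ _ ha) (hnp _ _ hb))) (by
        have e1 : a' * (g * (a' ^ f' * b' ^ e')) ^ 2 - h ^ 2 =
            g ^ 2 * ((-1) ^ (al * be) * a' ^ be * b' ^ al) - h ^ 2 := by
          rw [he', hf', show (e' + e') * (2 * f' + 1) = 2 * (e' * (2 * f' + 1)) by ring,
            pow_mul (-1 : M[X]) 2]
          ring
        rw [e1]
        exact hd)
    refine ⟨p ^ e' * t, ?_⟩
    rw [mem_pow_iff]
    have e2 : p ^ al * a' - (p ^ e' * t) ^ 2 = p ^ al * (a' - t ^ 2) := by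
      rw [he']
      ring
    rw [e2, pow_succ]
    exact mul_dvd_mul (hPw _) ht
  · refine Or.inr (Or.inl ⟨Nat.not_even_iff_odd.2 (hwo.mul he), hf.mul_left _, ?_⟩)
    obtain ⟨e', he'⟩ := he
    obtain ⟨f', hf'⟩ := hf
    obtain ⟨t, ht⟩ := sq_cancel (x := b') (y := g * (a' ^ f' * b' ^ e')) (h := h) hQ
      (hnd _ _ hg (hnd _ _ (hnp _ _ ha) (hnp _ _ hb))) (by
        have e1 : b' * (g * (a' ^ f' * b' ^ e')) ^ 2 - h ^ 2 =
            g ^ 2 * ((-1) ^ (al * be) * a' ^ be * b' ^ al) - h ^ 2 := by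
          rw [he', hf', show (2 * e' + 1) * (f' + f') = 2 * ((2 * e' + 1) * f') by ring,
            pow_mul (-1 : M[X]) 2]
          ring
        rw [e1]
        exact hd)
    refine ⟨p ^ f' * t, ?_⟩
    rw [mem_pow_iff]
    have e2 : p ^ be * b' - (p ^ f' * t) ^ 2 = p ^ be * (b' - t ^ 2) := by
      rw [hf']
      ring
    rw [e2, pow_succ]
    exact mul_dvd_mul (hPw _) ht
  · refine Or.inr (Or.inr (Or.inr ⟨Nat.not_even_iff_odd.2 (hwo.mul he),
      Nat.not_even_iff_odd.2 (hwo.mul hf), ?_⟩))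
    obtain ⟨e', he'⟩ := he
    obtain ⟨f', hf'⟩ := hf
    obtain ⟨t, ht⟩ := sq_cancel (x := -(a' * b')) (y := g * (a' ^ f' * b' ^ e')) (h := h) hQ
      (hnd _ _ hg (hnd _ _ (hnp _ _ ha) (hnp _ _ hb))) (by
        have e1 : -(a' * b') * (g * (a' ^ f' * b' ^ e')) ^ 2 - h ^ 2 =
            g ^ 2 * ((-1) ^ (al * be) * a' ^ be * b' ^ al) - h ^ 2 := by
          rw [he', hf', show (2 * e' + 1) * (2 * f' + 1) = 2 * (2 * e' * f' + e' + f') + 1 by ring,
            pow_succ (-1 : M[X]), pow_mul (-1 : M[X]) 2]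
          ring
        rw [e1]
        exact hd)
    refine ⟨p ^ (e' + f' + 1) * t, ?_⟩
    rw [mem_pow_iff]
    have e2 : -(p ^ al * a' * (p ^ be * b')) - (p ^ (e' + f' + 1) * t) ^ 2 =
        p ^ al * p ^ be * (-(a' * b') - t ^ 2) := by
      rw [he', hf']
      ring
    rw [e2, pow_succ, pow_add]
    exact mul_dvd_mul (mul_dvd_mul (hPw _) (hPw _)) ht

end Pool.Agent.Helper92.CB
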